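import Mathlib

/-! Residual solvability of amalgams along retracts (internal form). -/

namespace Pool.Agent.Lib.MP_3f0e2e_al

open Subgroup Filter
open scoped Pointwise

variable {H : Type} [Group H]

/-- `g` lies in every term of the derived series. -/
def Deep (g : H) : Prop := ∀ m, g ∈ derivedSeries H m

/-- Residually solvable. -/
def RS (H : Type) [Group H] : Prop := ∀ g : H, Deep g → g = 1

theorem map_mem_derived {G : Type} [Group G] (f : H →* G) {m : ℕ} {g : H}
    (hg : g ∈ derivedSeries H m) : f g ∈ derivedSeries G m :=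
  map_derivedSeries_le_derivedSeries f m ⟨g, hg, rfl⟩

theorem Deep.map {G : Type} [Group G] (f : H →* G) {g : H} (hg : Deep g) : Deep (f g) :=
  fun m => map_mem_derived f (hg m)

theorem RS.of_injective {G : Type} [Group G] (hG : RS G) (f : H →* G)
    (hf : Function.Injective f) : RS H :=
  fun g hg => hf (by rw [hG _ (hg.map f), map_one])

theorem not_deep_eventually {g : H} (hg : ¬ Deep g) :
    ∀ᶠ k in atTop, g ∉ derivedSeries H k := by
  obtain ⟨m, hm⟩ := not_forall.1 hg
  filter_upwards [eventually_ge_atTop m] with k hk h using hm (derivedSeries_antitone H hk h)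

/-- Reduced alternating words. -/
def Red (N : Bool → Subgroup H) (L : List (Bool × H)) : Prop :=
  (∀ x ∈ L, x.2 ∈ N x.1 ∧ x.2 ≠ 1) ∧ L.IsChain fun x y => x.1 ≠ y.1

theorem Red.take {N : Bool → Subgroup H} {L : List (Bool × H)} (h : Red N L) (j : ℕ) :
    Red N (L.take j) :=
  ⟨fun x hx => h.1 x (List.mem_of_mem_take hx), h.2.take j⟩

theorem Red.tail {N : Bool → Subgroup H} {x : Bool × H} {L : List (Bool × H)}
    (h : Red N (x :: L)) : Red N L :=
  ⟨fun y hy => h.1 y (List.mem_cons_of_mem _ hy), h.2.tail⟩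

theorem exists_red_mul {N : Bool → Subgroup H} {b : Bool} {n : H} (hn : n ∈ N b)
    {L : List (Bool × H)} (hL : Red N L) :
    ∃ L', Red N L' ∧ (L'.map Prod.snd).prod = n * (L.map Prod.snd).prod := by
  by_cases h1 : n = 1
  · exact ⟨L, hL, by rw [h1, one_mul]⟩
  cases L with
  | nil => exact ⟨[(b, n)], ⟨by simpa using ⟨hn, h1⟩, List.isChain_singleton _⟩, by simp⟩
  | cons x L =>
    by_cases hb : b = x.1
    · by_cases h2 : n * x.2 = 1
      · exact ⟨L, hL.tail, by simp [← mul_assoc, h2]⟩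
      · refine ⟨(b, n * x.2) :: L, ⟨?_, ?_⟩, by simp [mul_assoc]⟩
        · intro y hy
          rcases List.mem_cons.1 hy with rfl | hy
          · exact ⟨mul_mem hn (hb ▸ (hL.1 x List.mem_cons_self).1), h2⟩
          · exact hL.1 y (List.mem_cons_of_mem _ hy)
        · cases L with
          | nil => exact List.isChain_singleton _
          | cons y L =>
            have := List.isChain_cons_cons.1 hL.2
            exact List.isChain_cons_cons.2 ⟨by rw [hb]; exact this.1, this.2⟩
    · refine ⟨(b, n) :: x :: L, ⟨?_, List.isChain_cons_cons.2 ⟨hb, hL.2⟩⟩, by simp⟩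
      intro y hy
      rcases List.mem_cons.1 hy with rfl | hy
      · exact ⟨hn, h1⟩
      · exact hL.1 y hy

theorem exists_red {N : Bool → Subgroup H} {g : H} (hg : g ∈ N true ⊔ N false) :
    ∃ L, Red N L ∧ (L.map Prod.snd).prod = g := by
  rw [sup_eq_closure] at hg
  induction hg using closure_induction_left with
  | one => exact ⟨[], ⟨by simp, List.isChain_nil⟩, rfl⟩
  | mul_left x hx y _ ih =>
    obtain ⟨L, hL, rfl⟩ := ih
    rcases hx with hx | hx
    · exact exists_red_mul hx hL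
    · exact exists_red_mul hx hL
  | inv_mul_cancel x hx y _ ih =>
    obtain ⟨L, hL, rfl⟩ := ih
    rcases hx with hx | hx
    · exact exists_red_mul (inv_mem hx) hL
    · exact exists_red_mul (inv_mem hx) hL

section Cocycle

variable {Ω : Type} [MulAction H Ω]

/-- A cocycle with values in the integer valued functions on an `H`-set. -/
def Cocycle (d : H → Ω → ℤ) : Prop := ∀ g h ω, d (g * h) ω = d g ω + d h (g⁻¹ • ω)

theorem Cocycle.one {d : H → Ω → ℤ} (hd : Cocycle d) (ω : Ω) : d 1 ω = 0 := by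
  have := hd 1 1 ω
  simp only [mul_one, inv_one, one_smul] at this
  omega

theorem Cocycle.eq_zero {d : H → Ω → ℤ} (hd : Cocycle d) {D : Subgroup H}
    (hD : ∀ g ∈ D, ∀ ω : Ω, g • ω = ω) {g : H} (hg : g ∈ ⁅D, D⁆) (ω : Ω) : d g ω = 0 := by
  have hadd : ∀ g ∈ D, ∀ h, d (g * h) ω = d g ω + d h ω := fun g hg h => by
    rw [hd, hD _ (inv_mem hg)]
  have hinv : ∀ g ∈ D, d g⁻¹ ω = - d g ω := fun g hg => by
    have := hadd g hg g⁻¹
    rw [mul_inv_cancel, hd.one] at this
    omega
  let K : Subgroup H :=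
    { carrier := {g | g ∈ D ∧ d g ω = 0}
      mul_mem' := fun {a b} ha hb => ⟨mul_mem ha.1 hb.1, by rw [hadd a ha.1, ha.2, hb.2]; rfl⟩
      one_mem' := ⟨one_mem _, hd.one ω⟩
      inv_mem' := fun {a} ha => ⟨inv_mem ha.1, by rw [hinv a ha.1, ha.2]; rfl⟩ }
  have hle : ⁅D, D⁆ ≤ K := commutator_le.2 fun a ha b hb => by
    refine ⟨mul_mem (mul_mem (mul_mem ha hb) (inv_mem ha)) (inv_mem hb), ?_⟩
    rw [commutatorElement_def, hadd _ (mul_mem (mul_mem ha hb) (inv_mem ha)),
      hadd _ (mul_mem ha hb), hadd _ ha, hinv a ha, hinv b hb]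
    omega
  exact (hle hg).2

theorem Cocycle.prod_eq_zero {d : H → Ω → ℤ} (hd : Cocycle d) (e : Ω → ℤ) (o : Ω)
    (L : List H) (hL : ∀ n ∈ L, (∀ ω, d n ω = 0) ∨ ∀ ω, d n ω = e ω - e (n⁻¹ • ω)) :
    ∀ u : H, (∀ j, e ((u * (L.take j).prod)⁻¹ • o) = 0) → d L.prod (u⁻¹ • o) = 0 := by
  induction L with
  | nil => intro u _; exact hd.one _
  | cons n L ih =>
    intro u hu
    have h0 := hu 0
    have h1 := hu 1
    simp only [List.take_zero, List.prod_nil, mul_one, List.take_succ_cons, List.prod_cons]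
      at h0 h1
    have h2 := ih (fun m hm => hL m (List.mem_cons_of_mem _ hm)) (u * n) fun j => by
      have := hu (j + 1)
      rwa [List.take_succ_cons, List.prod_cons, ← mul_assoc] at this
    rw [List.prod_cons, hd, smul_smul, ← mul_inv_rev, h2, add_zero]
    rcases hL n List.mem_cons_self with h | h
    · exact h _
    · rw [h, smul_smul, ← mul_inv_rev, h0, h1, sub_zero]

end Cocycle

/-- The twisting property of a splitting of `H` over `C`. -/
def Twist (P Q C : Subgroup H) : Prop :=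
  ∀ (T : Type) [Group T] (ι : H →* T) (τ : T), (∀ c ∈ C, τ * ι c * τ⁻¹ = ι c) →
    ∃ Φ : H →* T, (∀ p ∈ P, Φ p = ι p) ∧ ∀ q ∈ Q, Φ q = τ * ι q * τ⁻¹

theorem Twist.exists_cocycle {P Q C : Subgroup H} (h : Twist P Q C) (hPQ : P ⊔ Q = ⊤)
    {Ω : Type} [MulAction H Ω] (e : Ω → ℤ) (he : ∀ c ∈ C, ∀ ω, e (c⁻¹ • ω) = e ω) :
    ∃ d : H → Ω → ℤ, Cocycle d ∧ (∀ p ∈ P, ∀ ω, d p ω = 0) ∧
      ∀ q ∈ Q, ∀ ω, d q ω = e ω - e (q⁻¹ • ω) := by
  let τ : (Ω → Multiplicative ℤ) ⋊[mulAutArrow] H :=
    SemidirectProduct.inl fun ω => Multiplicative.ofAdd (e ω)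
  have hτ : ∀ q : H, τ * SemidirectProduct.inr q * τ⁻¹ =
      ⟨fun ω => Multiplicative.ofAdd (e ω - e (q⁻¹ • ω)), q⟩ := fun q => by
    ext ω
    · simp [τ, sub_eq_add_neg]
      rfl
    · simp [τ]
  obtain ⟨Φ, hP, hQ⟩ := h _ SemidirectProduct.inr τ fun c hc => by
    rw [hτ]
    ext ω
    · simp [he c hc]
    · simp
  have hright : ∀ g, (Φ g).right = g := fun g => by
    have hle : P ⊔ Q ≤ (SemidirectProduct.rightHom.comp Φ).eqLocus (MonoidHom.id H) :=
      sup_le (fun p hp => by
        change (Φ p).right = p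
        rw [hP p hp]; rfl) (fun q hq => by
        change (Φ q).right = q
        rw [hQ q hq, hτ])
    exact hle (hPQ ▸ mem_top g)
  refine ⟨fun g ω => Multiplicative.toAdd ((Φ g).left ω), fun g h ω => ?_, fun p hp ω => ?_,
    fun q hq ω => ?_⟩
  · simp only [map_mul, SemidirectProduct.mul_left, Pi.mul_apply, toAdd_mul, hright]
    rfl
  · simp [hP p hp]
  · simp only [hQ q hq, hτ, toAdd_ofAdd]

theorem red_not_deep {N : Bool → Subgroup H} {C : Subgroup H} (ρ : H →* H)
    (hρC : ∀ c ∈ C, ρ c = c) (hρN : ∀ b, ∀ n ∈ N b, ρ n = 1)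
    (hN : ∀ b, ∀ n ∈ N b, Deep n → n = 1)
    (hco : ∀ (b : Bool) (Ω : Type) [MulAction H Ω] (e : Ω → ℤ),
      (∀ c ∈ C, ∀ ω, e (c⁻¹ • ω) = e ω) → ∃ d : H → Ω → ℤ, Cocycle d ∧
        (∀ p ∈ N (!b), ∀ ω, d p ω = 0) ∧ ∀ q ∈ N b, ∀ ω, d q ω = e ω - e (q⁻¹ • ω))
    (n : ℕ) : ∀ L : List (Bool × H), L.length ≤ n → Red N L → L ≠ [] →
      ¬ Deep (L.map Prod.snd).prod := by
  classical
  induction n with
  | zero => intro L hL _ hne; exact absurd (List.length_eq_zero_iff.1 (Nat.le_zero.1 hL)) hne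
  | succ n ih =>
    intro L hlen hred hne hdeep
    obtain ⟨⟨b, x⟩, L, rfl⟩ := List.exists_cons_of_ne_nil hne
    have hx := hred.1 _ List.mem_cons_self
    have hlen' : L.length ≤ n := by simpa using hlen
    have hev : ∀ᶠ k in atTop, x ∉ derivedSeries H k ∧ ∀ j ∈ Finset.range (L.length + 1),
        L.take j ≠ [] → ((L.take j).map Prod.snd).prod ∉ derivedSeries H k := by
      refine (not_deep_eventually fun h => hx.2 (hN _ _ hx.1 h)).and ?_
      rw [eventually_all_finset]
      intro j _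
      by_cases hj : L.take j = []
      · exact Eventually.of_forall fun k h => absurd hj h
      · filter_upwards [not_deep_eventually (ih (L.take j)
          ((List.length_take_le' _ _).trans hlen') (hred.tail.take j) hj)] with k hk _ using hk
    obtain ⟨k, hk1, hk2⟩ := hev.exists
    have hk3 : ∀ j, L.take j ≠ [] → ((L.take j).map Prod.snd).prod ∉ derivedSeries H k := by
      intro j hj
      by_cases hjl : j ≤ L.length
      · exact hk2 j (Finset.mem_range.2 (Nat.lt_succ_of_le hjl)) hj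
      · rw [List.take_of_length_le (not_le.1 hjl).le] at hj ⊢
        have := hk2 L.length (Finset.mem_range.2 (Nat.lt_succ_self _))
        rw [List.take_length] at this
        exact this hj
    set D := derivedSeries H k with hD
    have hDn : D.Normal := derivedSeries_normal H k
    let E : Subgroup H := D ⊔ C
    have hker : ∀ y, ρ y = 1 → y ∈ E → y ∈ D := fun y hy hyE => by
      have h1 : y ∈ (D : Set H) * (C : Set H) := by rw [← normal_mul]; exact hyE
      obtain ⟨a, ha, c, hc, rfl⟩ := h1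
      have h2 : ρ a * c = 1 := by rw [← hρC c hc, ← map_mul]; exact hy
      have h3 : c = (ρ a)⁻¹ := eq_inv_of_mul_eq_one_right h2
      exact mul_mem ha (h3 ▸ inv_mem (map_mem_derived ρ ha))
    let o : H ⧸ E := ((1 : H) : H ⧸ E)
    let e : H ⧸ E → ℤ := fun ω => if ω = o then 1 else 0
    have hsm : ∀ y : H, y • o = o ↔ y ∈ E := fun y => by
      change ((y * 1 : H) : H ⧸ E) = ((1 : H) : H ⧸ E) ↔ _
      rw [QuotientGroup.eq]
      simp
    have he0 : ∀ y : H, ρ y = 1 → y ∉ D → e (y • o) = 0 ∧ e (y⁻¹ • o) = 0 := fun y hy hyD =>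
      ⟨if_neg fun h => hyD (hker y hy ((hsm y).1 h)),
        if_neg fun h => hyD (hker y hy (inv_mem_iff.1 ((hsm _).1 h)))⟩
    obtain ⟨d, hd, hd0, hd1⟩ := hco b (H ⧸ E) e fun c hc ω => by
      have : c⁻¹ • ω = o ↔ ω = o := by
        rw [inv_smul_eq_iff, (hsm c).2 (mem_sup_right hc)]
      simp only [e, this]
    have hDtriv : ∀ g ∈ D, ∀ ω : H ⧸ E, g • ω = ω := fun g hg ω => by
      induction ω using QuotientGroup.induction_on with
      | H y =>
        change ((g * y : H) : H ⧸ E) = (y : H ⧸ E)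
        rw [QuotientGroup.eq]
        refine mem_sup_left ?_
        have := hDn.conj_mem _ (inv_mem hg) y⁻¹
        simpa [mul_assoc] using this
    have hz := hd.eq_zero hDtriv (hdeep (k + 1)) (x • o)
    rw [List.map_cons, List.prod_cons, hd, inv_smul_smul, hd1 x hx.1, inv_smul_smul,
      (he0 x (hρN _ _ hx.1) hk1).1] at hz
    have heo : e o = 1 := if_pos rfl
    have hρprod : ∀ M : List (Bool × H), Red N M → ρ (M.map Prod.snd).prod = 1 := fun M hM => by
      rw [map_list_prod]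
      refine List.prod_eq_one fun y hy => ?_
      obtain ⟨z, hz, rfl⟩ := List.mem_map.1 hy
      obtain ⟨w, hw, rfl⟩ := List.mem_map.1 hz
      exact hρN _ _ (hM.1 w hw).1
    have hfin : d (L.map Prod.snd).prod o = 0 := by
      cases L with
      | nil => exact hd.one _
      | cons y L =>
        have hb : y.1 = !b := by
          have : b ≠ y.1 := (List.isChain_cons_cons.1 hred.2).1
          exact Bool.eq_not_of_ne this.symm
        have hy := hred.tail.1 y List.mem_cons_self
        rw [List.map_cons, List.prod_cons, hd, hd0 _ (hb ▸ hy.1), zero_add]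
        refine hd.prod_eq_zero e o _ (fun m hm => ?_) y.2 fun j => ?_
        · obtain ⟨w, hw, rfl⟩ := List.mem_map.1 hm
          have hw' := (hred.tail.tail.1 w hw).1
          by_cases hwb : w.1 = b
          · exact Or.inr (hd1 _ (hwb ▸ hw'))
          · have : w.1 = !b := Bool.eq_not_of_ne hwb
            exact Or.inl (hd0 _ (this ▸ hw'))
        · have h1 := hk3 (j + 1) (by simp)
          have h2 := hρprod _ (hred.tail.take (j + 1))
          rw [List.take_succ_cons, List.map_cons, List.prod_cons, List.map_take] at h1 h2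
          exact (he0 _ h2 h1).2
    rw [hfin, heo] at hz
    omega

/-- Amalgams along retracts: deep elements of `P ⊔ Q` are trivial. -/
theorem amalg {P Q P' Q' C : Subgroup H} (hPP : P ≤ P') (hQQ : Q ≤ Q') (htop : P' ⊔ Q' = ⊤)
    (htw : Twist P' Q' C) (hCP : C ≤ P) (hCQ : C ≤ Q) (ρ : H →* H) (hρC : ∀ c ∈ C, ρ c = c)
    (hρP : ∀ p ∈ P, ρ p ∈ C) (hρQ : ∀ q ∈ Q, ρ q ∈ C)
    (hP : ∀ p ∈ P, Deep p → p = 1) (hQ : ∀ q ∈ Q, Deep q → q = 1)
    {g : H} (hg : g ∈ P ⊔ Q) (hdeep : Deep g) : g = 1 := by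
  let N : Bool → Subgroup H := fun b => (bif b then Q else P) ⊓ ρ.ker
  have hconj : ∀ c ∈ C, ∀ n ∈ N true ⊔ N false, c * n * c⁻¹ ∈ N true ⊔ N false := by
    intro c hc n hn
    have : N true ⊔ N false ≤ (N true ⊔ N false).comap (MulAut.conj c).toMonoidHom := by
      refine sup_le (fun m hm => mem_sup_left ⟨?_, ?_⟩) (fun m hm => mem_sup_right ⟨?_, ?_⟩)
      · exact Q.mul_mem (Q.mul_mem (hCQ hc) hm.1) (Q.inv_mem (hCQ hc))
      · exact ρ.normal_ker.conj_mem m hm.2 c
      · exact P.mul_mem (P.mul_mem (hCP hc) hm.1) (P.inv_mem (hCP hc))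
      · exact ρ.normal_ker.conj_mem m hm.2 c
    exact this hn
  have hmain : ρ g ∈ C ∧ g * (ρ g)⁻¹ ∈ N true ⊔ N false := by
    clear hdeep
    rw [sup_eq_closure] at hg
    induction hg using closure_induction with
    | mem x hx =>
      rcases hx with hx | hx
      · refine ⟨hρP x hx, mem_sup_right ⟨P.mul_mem hx (P.inv_mem (hCP (hρP x hx))), ?_⟩⟩
        change ρ _ = 1
        rw [map_mul, map_inv, hρC _ (hρP x hx), mul_inv_cancel]
      · refine ⟨hρQ x hx, mem_sup_left ⟨Q.mul_mem hx (Q.inv_mem (hCQ (hρQ x hx))), ?_⟩⟩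
        change ρ _ = 1
        rw [map_mul, map_inv, hρC _ (hρQ x hx), mul_inv_cancel]
    | one => simp
    | mul x y _ _ hx hy =>
      refine ⟨by rw [map_mul]; exact mul_mem hx.1 hy.1, ?_⟩
      have := mul_mem hx.2 (hconj _ hx.1 _ hy.2)
      simpa [mul_assoc] using this
    | inv x _ hx =>
      refine ⟨by rw [map_inv]; exact inv_mem hx.1, ?_⟩
      have := hconj _ (inv_mem hx.1) _ (inv_mem hx.2)
      simpa [mul_assoc] using this
  have h1 : ρ g = 1 := hP _ (hCP hmain.1) (hdeep.map ρ)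
  have h2 := hmain.2
  rw [h1, inv_one, mul_one] at h2
  obtain ⟨L, hL, rfl⟩ := exists_red h2
  by_contra hne
  refine red_not_deep (N := N) ρ hρC (fun b n hn => hn.2) (fun b n hn => ?_)
    (fun b Ω _ e he => ?_) L.length L le_rfl hL (fun h => hne (by rw [h]; rfl)) hdeep
  · cases b
    · exact hP n hn.1
    · exact hQ n hn.1
  · obtain ⟨d, hd, hd0, hd1⟩ := htw.exists_cocycle htop e he
    cases b
    · refine ⟨fun g ω => e ω - e (g⁻¹ • ω) - d g ω, fun g h ω => ?_, fun q hq ω => ?_,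
        fun p hp ω => ?_⟩
      · simp only [hd g h ω, mul_inv_rev, mul_smul]
        ring
      · simp only [hd1 q (hQQ hq.1), sub_self]
      · simp only [hd0 p (hPP hp.1), sub_zero]
    · exact ⟨d, hd, fun p hp => hd0 p (hPP hp.1), fun q hq => hd1 q (hQQ hq.1)⟩

end Pool.Agent.Lib.MP_3f0e2e_al
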