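import Mathlib

/-! Formal commutators, basic commutators in the sense of M. Hall, and admissible orders. -/

namespace Pool.Agent.Lib.MP_3f0e2e_al

/-- The value of a formal commutator (a binary tree with leaves labelled by letters):
`[a, b] = a⁻¹ b⁻¹ a b`. -/
def ev {Y G : Type} [Group G] (f : Y → G) : FreeMagma Y → G
  | .of y => f y
  | .mul u v => (ev f u)⁻¹ * (ev f v)⁻¹ * ev f u * ev f v

/-- Basic commutators with respect to the order `lt`. -/
inductive Basic {Y : Type} (lt : FreeMagma Y → FreeMagma Y → Prop) : FreeMagma Y → Prop
  | gen (y : Y) : Basic lt (.of y)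
  | comm (u v : FreeMagma Y) : Basic lt u → Basic lt v → lt v u →
      (∀ s t, u = .mul s t → t = v ∨ lt t v) → Basic lt (.mul u v)

/-- `lt` is a strict total order on the basic commutators which extends the order of the
generators and in which commutators of smaller weight come first. -/
structure Admissible {n : ℕ} (lt : FreeMagma (Fin n) → FreeMagma (Fin n) → Prop) : Prop where
  irrefl : ∀ c, Basic lt c → ¬ lt c c
  trans : ∀ c d e, Basic lt c → Basic lt d → Basic lt e → lt c d → lt d e → lt c e
  total : ∀ c d, Basic lt c → Basic lt d → c = d ∨ lt c d ∨ lt d c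
  gen : ∀ i j, lt (.of i) (.of j) ↔ i < j
  weight : ∀ c d, Basic lt c → Basic lt d → c.length < d.length → lt c d

/-- Every nontrivial element survives in a solvable quotient. -/
def ResSolvable (G : Type) [Group G] : Prop :=
  ∀ g : G, g ≠ 1 → ∃ (S : Type) (_ : Group S) (φ : G →* S),
    Group.IsSolvable S ∧ Function.Surjective φ ∧ φ g ≠ 1

end Pool.Agent.Lib.MP_3f0e2e_al
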