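import Pool.Agent.Lib.MP_3f0e2e_al.Defs

/-! Combinatorics of Hall trees: elimination of the smallest leaf. -/

namespace Pool.Agent.Lib.MP_3f0e2e_al

variable {Y : Type}

theorem of_inj {a b : Y} (h : FreeMagma.of a = .of b) : a = b := by cases h; rfl

theorem mul_inj {a b c d : FreeMagma Y} (h : FreeMagma.mul a b = .mul c d) : a = c ∧ b = d := by
  cases h; exact ⟨rfl, rfl⟩

/-- Subtrees. -/
inductive Sub : FreeMagma Y → FreeMagma Y → Prop
  | refl (c : FreeMagma Y) : Sub c c
  | left {d u : FreeMagma Y} (v : FreeMagma Y) : Sub d u → Sub d (.mul u v)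
  | right {d v : FreeMagma Y} (u : FreeMagma Y) : Sub d v → Sub d (.mul u v)

theorem Sub.trans {c d e : FreeMagma Y} (h : Sub c d) (h' : Sub d e) : Sub c e := by
  induction h' with
  | refl => exact h
  | left v _ ih => exact ih.left v
  | right u _ ih => exact ih.right u

theorem sub_of {d : FreeMagma Y} {y : Y} (h : Sub d (.of y)) : d = .of y := by
  cases h; rfl

theorem sub_mul {d u v : FreeMagma Y} (h : Sub d (.mul u v)) :
    d = .mul u v ∨ Sub d u ∨ Sub d v := by
  cases h with
  | refl => exact Or.inl rfl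
  | left _ h => exact Or.inr (Or.inl h)
  | right _ h => exact Or.inr (Or.inr h)

theorem length_mul (u v : FreeMagma Y) : (FreeMagma.mul u v).length = u.length + v.length := rfl

theorem length_of (y : Y) : (FreeMagma.of y).length = 1 := rfl

theorem Sub.length_lt {c d : FreeMagma Y} (h : Sub c d) : c = d ∨ c.length < d.length := by
  induction h with
  | refl => exact Or.inl rfl
  | left v _ ih =>
    right
    have := FreeMagma.length_pos v
    rw [length_mul]
    rcases ih with rfl | ih <;> omega
  | right u _ ih =>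
    right
    have := FreeMagma.length_pos u
    rw [length_mul]
    rcases ih with rfl | ih <;> omega

theorem exists_leaf (c : FreeMagma Y) : ∃ y, Sub (.of y) c := by
  induction c using FreeMagma.rec with
  | of y => exact ⟨y, .refl _⟩
  | mul u v ih _ => obtain ⟨y, hy⟩ := ih; exact ⟨y, hy.left v⟩

/-- The order properties of the subtrees of a basic commutator. -/
structure Hall (r : FreeMagma Y → FreeMagma Y → Prop) (c : FreeMagma Y) : Prop where
  irrefl : ∀ d, Sub d c → ¬ r d d
  trans : ∀ d e f, Sub d c → Sub e c → Sub f c → r d e → r e f → r d f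
  total : ∀ d e, Sub d c → Sub e c → d = e ∨ r d e ∨ r e d
  node : ∀ u v, Sub (.mul u v) c → r v u ∧ ∀ s t, u = .mul s t → t = v ∨ r t v
  proper : ∀ d e, Sub d c → Sub e d → e = d ∨ r e d

theorem Basic.sub {lt : FreeMagma Y → FreeMagma Y → Prop} {c d : FreeMagma Y} (hc : Basic lt c)
    (h : Sub d c) : Basic lt d := by
  induction h with
  | refl => exact hc
  | left v _ ih => cases hc with | comm _ _ h1 _ _ _ => exact ih h1
  | right u _ ih => cases hc with | comm _ _ _ h2 _ _ => exact ih h2

theorem Basic.hall {n : ℕ} {lt : FreeMagma (Fin n) → FreeMagma (Fin n) → Prop}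
    (h : Admissible lt) {c : FreeMagma (Fin n)} (hc : Basic lt c) : Hall lt c where
  irrefl d hd := h.irrefl d (hc.sub hd)
  trans d e f hd he hf := h.trans d e f (hc.sub hd) (hc.sub he) (hc.sub hf)
  total d e hd he := h.total d e (hc.sub hd) (hc.sub he)
  node u v huv := by
    cases hc.sub huv with
    | comm _ _ _ _ h1 h2 => exact ⟨h1, h2⟩
  proper d e hd he := he.length_lt.imp id (h.weight e d (hc.sub (he.trans hd)) (hc.sub hd))

theorem Hall.exists_min {r : FreeMagma Y → FreeMagma Y → Prop} {c : FreeMagma Y} (h : Hall r c) :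
    ∃ t, Sub (.of t) c ∧ ∀ s, Sub (.of s) c → ¬ r (.of s) (.of t) := by
  have key : ∀ d, Sub d c → ∃ t, Sub (.of t) d ∧ ∀ s, Sub (.of s) d → ¬ r (.of s) (.of t) := by
    intro d
    induction d using FreeMagma.rec with
    | of y =>
      intro hd
      refine ⟨y, .refl _, fun s hs => ?_⟩
      rw [sub_of hs]
      exact h.irrefl _ hd
    | mul u v ihu ihv =>
      intro hd
      have hu : Sub u c := ((Sub.refl u).left v).trans hd
      have hv : Sub v c := ((Sub.refl v).right u).trans hd
      obtain ⟨a, ha, ha'⟩ := ihu hu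
      obtain ⟨b, hb, hb'⟩ := ihv hv
      by_cases hab : r (.of a) (.of b)
      · refine ⟨a, ha.left v, fun s hs hsa => ?_⟩
        rcases sub_mul hs with h1 | h1 | h1
        · cases h1
        · exact ha' s h1 hsa
        · exact hb' s h1 (h.trans _ _ _ (h1.trans hv) (ha.trans hu) (hb.trans hv) hsa hab)
      · refine ⟨b, hb.right u, fun s hs hsb => ?_⟩
        rcases sub_mul hs with h1 | h1 | h1
        · cases h1
        · rcases h.total _ _ (ha.trans hu) (hb.trans hv) with h2 | h2 | h2
          · exact ha' s h1 (h2 ▸ hsb)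
          · exact hab h2
          · exact ha' s h1 (h.trans _ _ _ (h1.trans hu) (hb.trans hv) (ha.trans hu) hsb h2)
        · exact hb' s h1 hsb
  exact key c (.refl c)

/-- The left normed commutator `[y, t, ..., t]`. -/
def eta (t y : Y) : ℕ → FreeMagma Y
  | 0 => .of y
  | i + 1 => .mul (eta t y i) (.of t)

/-- Substitution of the left normed commutators for the letters. -/
def subst (t : Y) : FreeMagma (Y × ℕ) → FreeMagma Y
  | .of p => eta t p.1 p.2
  | .mul u v => .mul (subst t u) (subst t v)

/-- No leaf carries the letter `t`. -/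
def NoT (t : Y) (d : FreeMagma (Y × ℕ)) : Prop := ∀ p, Sub (.of p) d → p.1 ≠ t

theorem NoT.sub {t : Y} {d e : FreeMagma (Y × ℕ)} (h : NoT t d) (he : Sub e d) : NoT t e :=
  fun p hp => h p (hp.trans he)

theorem subst_ne {t : Y} {d : FreeMagma (Y × ℕ)} (h : NoT t d) : subst t d ≠ .of t := by
  cases d with
  | of p =>
    obtain ⟨y, i⟩ := p
    cases i with
    | zero => intro h1; exact h _ (.refl _) (of_inj h1)
    | succ i => intro h1; cases h1
  | mul u v => intro h1; cases h1

theorem eta_inj {t y y' : Y} : ∀ {i j : ℕ}, eta t y i = eta t y' j → y = y' ∧ i = j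
  | 0, 0, h => ⟨of_inj h, rfl⟩
  | 0, _ + 1, h => by cases h
  | _ + 1, 0, h => by cases h
  | _ + 1, _ + 1, h => by
    obtain ⟨h1, h2⟩ := eta_inj (mul_inj h).1
    exact ⟨h1, by rw [h2]⟩

theorem eta_ne_mul {t y : Y} {i : ℕ} {u v : FreeMagma (Y × ℕ)} (hv : NoT t v) :
    eta t y i ≠ .mul (subst t u) (subst t v) := by
  cases i with
  | zero => intro h; cases h
  | succ i => intro h; exact subst_ne hv (mul_inj h).2.symm

theorem subst_inj {t : Y} : ∀ {d e : FreeMagma (Y × ℕ)}, NoT t d → NoT t e →
    subst t d = subst t e → d = e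
  | .of p, .of q, _, _, h => by
    obtain ⟨h1, h2⟩ := eta_inj h
    rw [Prod.ext h1 h2]
  | .of _, .mul u v, _, he, h => absurd h (eta_ne_mul (he.sub ((Sub.refl v).right u)))
  | .mul u v, .of _, hd, _, h => absurd h.symm (eta_ne_mul (hd.sub ((Sub.refl v).right u)))
  | .mul u v, .mul u' v', hd, he, h => by
    obtain ⟨h1, h2⟩ := mul_inj h
    rw [subst_inj (hd.sub ((Sub.refl u).left v)) (he.sub ((Sub.refl u').left v')) h1,
      subst_inj (hd.sub ((Sub.refl v).right u)) (he.sub ((Sub.refl v').right u')) h2]

theorem Sub.subst {t : Y} {d e : FreeMagma (Y × ℕ)} (h : Sub d e) :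
    Sub (subst t d) (subst t e) := by
  induction h with
  | refl => exact .refl _
  | left v _ ih => exact ih.left _
  | right u _ ih => exact ih.right _

theorem Hall.of_subst {r : FreeMagma Y → FreeMagma Y → Prop} {t : Y} {c : FreeMagma (Y × ℕ)}
    (hc : NoT t c) (h : Hall r (subst t c)) : Hall (fun d e => r (subst t d) (subst t e)) c where
  irrefl d hd := h.irrefl _ hd.subst
  trans _ _ _ hd he hf := h.trans _ _ _ hd.subst he.subst hf.subst
  total _ _ hd he := (h.total _ _ hd.subst he.subst).imp_left (subst_inj (hc.sub hd) (hc.sub he))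
  node u v huv := by
    obtain ⟨h1, h2⟩ := h.node _ _ huv.subst
    refine ⟨h1, fun s w hs => ?_⟩
    subst hs
    exact (h2 _ _ rfl).imp_left (subst_inj (hc.sub ((((Sub.refl w).right s).left v).trans huv))
      (hc.sub (((Sub.refl v).right _).trans huv)))
  proper _ _ hd he := (h.proper _ _ hd.subst he.subst).imp_left
    (subst_inj (hc.sub (he.trans hd)) (hc.sub hd))

theorem length_eta (t y : Y) (i : ℕ) : (eta t y i).length = i + 1 := by
  induction i with
  | zero => rfl
  | succ i ih => rw [eta, length_mul, ih, length_of]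

theorem length_le_subst (t : Y) (d : FreeMagma (Y × ℕ)) : d.length ≤ (subst t d).length := by
  induction d using FreeMagma.rec with
  | of p => rw [subst, length_eta, length_of]; omega
  | mul u v ihu ihv => rw [subst, length_mul, length_mul]; omega

theorem length_lt_subst {t : Y} {d : FreeMagma (Y × ℕ)} (h : NoT t d)
    (ht : Sub (.of t) (subst t d)) : d.length < (subst t d).length := by
  induction d using FreeMagma.rec with
  | of p =>
    obtain ⟨y, i⟩ := p
    cases i with
    | zero => exact absurd (sub_of ht).symm (subst_ne h)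
    | succ i => rw [subst, length_eta, length_of]; omega
  | mul u v ihu ihv =>
    have h1 := length_le_subst t u
    have h2 := length_le_subst t v
    rw [subst, length_mul, length_mul]
    rcases sub_mul ht with h3 | h3 | h3
    · cases h3
    · have := ihu (h.sub ((Sub.refl u).left v)) h3
      omega
    · have := ihv (h.sub ((Sub.refl v).right u)) h3
      omega

theorem Hall.exists_subst {r : FreeMagma Y → FreeMagma Y → Prop} {c : FreeMagma Y} (h : Hall r c)
    {t : Y} (ht : Sub (.of t) c) (hmin : ∀ s, Sub (.of s) c → ¬ r (.of s) (.of t)) :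
    ∀ d, Sub d c → d ≠ .of t → ∃ d', NoT t d' ∧ subst t d' = d ∧
      ((∀ s w, d = .mul s w → w = .of t) → ∃ p, d' = .of p) := by
  have hle : ∀ w, Sub w c → ¬ r w (.of t) := fun w hw hr => by
    obtain ⟨s, hs⟩ := exists_leaf w
    rcases h.proper _ _ hw hs with h1 | h1
    · exact hmin s (hs.trans hw) (h1 ▸ hr)
    · exact hmin s (hs.trans hw) (h.trans _ _ _ (hs.trans hw) hw ht h1 hr)
  intro d
  induction d using FreeMagma.rec with
  | of y =>
    intro _ hne
    refine ⟨.of (y, 0), fun p hp => ?_, rfl, fun _ => ⟨_, rfl⟩⟩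
    rw [of_inj (sub_of hp)]
    exact fun h1 => hne (congrArg _ h1)
  | mul u v ihu ihv =>
    intro hd _
    have hu : Sub u c := ((Sub.refl u).left v).trans hd
    have hv : Sub v c := ((Sub.refl v).right u).trans hd
    obtain ⟨h1, h2⟩ := h.node u v hd
    obtain ⟨u', hu1, hu2, hu3⟩ := ihu hu fun h3 => hle v hv (h3 ▸ h1)
    by_cases hvt : v = .of t
    · obtain ⟨p, rfl⟩ := hu3 fun s w hs => by
        rcases h2 s w hs with h3 | h3
        · rw [h3, hvt]
        · exact absurd (hvt ▸ h3) (hle w (((Sub.refl w).right s).trans (hs ▸ hu)))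
      refine ⟨.of (p.1, p.2 + 1), fun q hq => ?_, ?_, fun _ => ⟨_, rfl⟩⟩
      · rw [of_inj (sub_of hq)]
        exact hu1 p (.refl _)
      · rw [← hu2, hvt]; rfl
    · obtain ⟨v', hv1, hv2, -⟩ := ihv hv hvt
      refine ⟨.mul u' v', fun p hp => ?_, by rw [subst, hu2, hv2], fun h3 => ?_⟩
      · rcases sub_mul hp with h4 | h4 | h4
        · cases h4
        · exact hu1 p h4
        · exact hv1 p h4
      · exact absurd (h3 u v rfl) hvt

theorem exists_max_leaf (c : FreeMagma (Y × ℕ)) :
    ∃ p, Sub (.of p) c ∧ ∀ q, Sub (.of q) c → q.2 ≤ p.2 := by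
  induction c using FreeMagma.rec with
  | of p => exact ⟨p, .refl _, fun q hq => by rw [of_inj (sub_of hq)]⟩
  | mul u v ihu ihv =>
    obtain ⟨a, ha, ha'⟩ := ihu
    obtain ⟨b, hb, hb'⟩ := ihv
    rcases le_total a.2 b.2 with hab | hab
    · refine ⟨b, hb.right u, fun q hq => ?_⟩
      rcases sub_mul hq with h | h | h
      · cases h
      · exact (ha' q h).trans hab
      · exact hb' q h
    · refine ⟨a, ha.left v, fun q hq => ?_⟩
      rcases sub_mul hq with h | h | h
      · cases h
      · exact ha' q h
      · exact (hb' q h).trans hab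

section Ev

variable {G G' : Type} [Group G] [Group G']

theorem map_ev (φ : G →* G') (f : Y → G) (c : FreeMagma Y) :
    φ (ev f c) = ev (fun y => φ (f y)) c := by
  induction c using FreeMagma.rec with
  | of y => rfl
  | mul u v ihu ihv => simp only [ev, map_mul, map_inv, ihu, ihv]

theorem ev_congr {f g : Y → G} {c : FreeMagma Y} (h : ∀ y, Sub (.of y) c → f y = g y) :
    ev f c = ev g c := by
  induction c using FreeMagma.rec with
  | of y => exact h y (.refl _)
  | mul u v ihu ihv =>
    simp only [ev, ihu fun y hy => h y (hy.left v), ihv fun y hy => h y (hy.right u)]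

theorem ev_eq_one {f : Y → G} {c : FreeMagma Y} {y : Y} (hy : Sub (.of y) c) (h : f y = 1) :
    ev f c = 1 := by
  induction c using FreeMagma.rec with
  | of z => rw [← sub_of hy]; exact h
  | mul u v ihu ihv =>
    rcases sub_mul hy with h1 | h1 | h1
    · cases h1
    · simp [ev, ihu h1]
    · simp [ev, ihv h1]

theorem ev_mem {f : Y → G} {c : FreeMagma Y} {S : Subgroup G}
    (h : ∀ y, Sub (.of y) c → f y ∈ S) : ev f c ∈ S := by
  induction c using FreeMagma.rec with
  | of y => exact h y (.refl _)
  | mul u v ihu ihv =>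
    have h1 := ihu fun y hy => h y (hy.left v)
    have h2 := ihv fun y hy => h y (hy.right u)
    exact mul_mem (mul_mem (mul_mem (inv_mem h1) (inv_mem h2)) h1) h2

theorem ev_subst (f : Y → G) (t : Y) (c : FreeMagma (Y × ℕ)) :
    ev f (subst t c) = ev (fun p => ev f (eta t p.1 p.2)) c := by
  induction c using FreeMagma.rec with
  | of p => rfl
  | mul u v ihu ihv => simp only [subst, ev, ihu, ihv]

end Ev

end Pool.Agent.Lib.MP_3f0e2e_al
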