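import Pool.Agent.Lib.MP_3f0e2e_al.Amalg

/-! Free groups, two-piece presentations and lines of presentations. -/

namespace Pool.Agent.Lib.MP_3f0e2e_al

open Subgroup

variable {Z : Type}

/-- The subgroup of the free group generated by the letters in `A`. -/
def FA (A : Set Z) : Subgroup (FreeGroup Z) := closure (FreeGroup.of '' A)

theorem of_mem_FA {A : Set Z} {z : Z} (hz : z ∈ A) : FreeGroup.of z ∈ FA A :=
  subset_closure ⟨z, hz, rfl⟩

theorem FA_mono {A B : Set Z} (h : A ⊆ B) : FA A ≤ FA B := closure_mono (Set.image_mono h)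

theorem map_mem_of_FA {G : Type} [Group G] {A : Set Z} (f : FreeGroup Z →* G) {S : Subgroup G}
    (h : ∀ z ∈ A, f (FreeGroup.of z) ∈ S) {g : FreeGroup Z} (hg : g ∈ FA A) : f g ∈ S := by
  have : FA A ≤ S.comap f := (closure_le _).2 (by rintro _ ⟨z, hz, rfl⟩; exact h z hz)
  exact this hg

theorem eq_of_FA {G : Type} [Group G] {A : Set Z} (f f' : FreeGroup Z →* G)
    (h : ∀ z ∈ A, f (FreeGroup.of z) = f' (FreeGroup.of z)) {g : FreeGroup Z} (hg : g ∈ FA A) :
    f g = f' g :=
  map_mem_of_FA (MonoidHom.id _) (S := f.eqLocus f') h hg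

theorem fix_of_FA {A : Set Z} (f : FreeGroup Z →* FreeGroup Z)
    (h : ∀ z ∈ A, f (FreeGroup.of z) = FreeGroup.of z) {g : FreeGroup Z} (hg : g ∈ FA A) :
    f g = g :=
  eq_of_FA f (MonoidHom.id _) h hg

theorem FA_sup_eq_top {A B : Set Z} (h : ∀ z, z ∈ A ∨ z ∈ B) : FA A ⊔ FA B = ⊤ := by
  rw [eq_top_iff, ← FreeGroup.closure_range_of, closure_le]
  rintro _ ⟨z, rfl⟩
  rcases h z with h | h
  · exact mem_sup_left (of_mem_FA h)
  · exact mem_sup_right (of_mem_FA h)

theorem exists_finset_mem_FA (g : FreeGroup Z) : ∃ S : Finset Z, g ∈ FA (S : Set Z) := by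
  classical
  induction g using FreeGroup.induction_on with
  | C1 => exact ⟨∅, one_mem _⟩
  | of z => exact ⟨{z}, of_mem_FA (by simp)⟩
  | inv_of z ih => obtain ⟨S, hS⟩ := ih; exact ⟨S, inv_mem hS⟩
  | mul x y hx hy =>
    obtain ⟨S, hS⟩ := hx
    obtain ⟨T, hT⟩ := hy
    exact ⟨S ∪ T, mul_mem (FA_mono (by simp) hS) (FA_mono (by simp) hT)⟩

theorem deep_comm {G : Type} [CommGroup G] {g : G} (hg : Deep g) : g = 1 := by
  have h := hg 1
  rw [derivedSeries_one, commutator_def] at h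
  have : ⁅(⊤ : Subgroup G), ⊤⁆ ≤ ⊥ := commutator_le.2 fun a _ b _ => by
    rw [mem_bot, commutatorElement_eq_one_iff_mul_comm, mul_comm]
  exact mem_bot.1 (this h)

theorem rs_free (Z : Type) : RS (FreeGroup Z) := by
  classical
  intro g
  obtain ⟨S, hS⟩ := exists_finset_mem_FA g
  induction S using Finset.induction_on generalizing g with
  | empty =>
    intro _
    simpa [FA] using hS
  | insert z S hz ih =>
    refine amalg (P := FA {z}) (Q := FA (S : Set Z)) (P' := FA {z}) (Q' := FA {z}ᶜ) (C := ⊥)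
      le_rfl (FA_mono ?_) (FA_sup_eq_top fun y => em _) ?_ bot_le bot_le 1 (by simp) (by simp)
      (by simp) ?_ ih ?_
    · intro y hy h
      exact hz (h ▸ hy)
    · intro T _ ι τ _
      refine ⟨FreeGroup.lift fun y => if y = z then ι (FreeGroup.of y)
        else τ * ι (FreeGroup.of y) * τ⁻¹, fun p hp => eq_of_FA _ ι ?_ hp, fun q hq =>
        eq_of_FA _ ((MulAut.conj τ).toMonoidHom.comp ι) ?_ hq⟩
      · rintro y rfl
        simp
      · intro y hy
        have : y ≠ z := hy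
        simp [this]
    · intro p hp hd
      rw [FA, Set.image_singleton, mem_closure_singleton] at hp
      obtain ⟨k, rfl⟩ := hp
      have h1 := deep_comm (hd.map
        (FreeGroup.lift fun _ : Z => Multiplicative.ofAdd (1 : ℤ)))
      have h2 : k = 0 := by simpa [← ofAdd_zsmul] using h1
      rw [h2, zpow_zero]
    · rw [Finset.coe_insert, Set.insert_eq, FA, Set.image_union, Subgroup.closure_union] at hS
      exact hS

/-- The homomorphism out of a presented group induced by a homomorphism of the free group. -/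
def desc {G : Type} [Group G] {R : Set (FreeGroup Z)} (f : FreeGroup Z →* G)
    (h : ∀ r ∈ R, f r = 1) : PresentedGroup R →* G :=
  QuotientGroup.lift _ f fun _ hx =>
    (normalClosure_le_normal (N := f.ker) fun r hr => h r hr) hx

theorem desc_mk {G : Type} [Group G] {R : Set (FreeGroup Z)} (f : FreeGroup Z →* G)
    (h : ∀ r ∈ R, f r = 1) (g : FreeGroup Z) : desc f h (PresentedGroup.mk R g) = f g := rfl

/-- Transfer of triviality of deep elements along an endomorphism of the free group. -/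
theorem mk_eq_one_of_fix {R R' : Set (FreeGroup Z)} (hR : R' ⊆ R) (h : RS (PresentedGroup R'))
    (α : FreeGroup Z →* FreeGroup Z) (hα : ∀ r ∈ R, α r = 1 ∨ α r ∈ R') {g : FreeGroup Z}
    (hg : α g = g) (hd : Deep (PresentedGroup.mk R g)) : PresentedGroup.mk R g = 1 := by
  have h1 := h _ (hd.map (desc ((PresentedGroup.mk R').comp α) fun r hr => by
    rcases hα r hr with h | h
    · simp [h]
    · exact PresentedGroup.one_of_mem h))
  rw [desc_mk, MonoidHom.comp_apply, hg, PresentedGroup.mk_eq_one_iff] at h1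
  exact PresentedGroup.mk_eq_one_iff.2 (normalClosure_mono hR h1)

theorem rs_two {R₁ R₂ : Set (FreeGroup Z)} {A B : Set Z} (hAB : ∀ z, z ∈ A ∨ z ∈ B)
    (h₁ : ∀ r ∈ R₁, r ∈ FA A) (h₂ : ∀ r ∈ R₂, r ∈ FA B) (α β : FreeGroup Z →* FreeGroup Z)
    (hαA : ∀ z ∈ A, α (FreeGroup.of z) = FreeGroup.of z)
    (hαB : ∀ z ∈ B, α (FreeGroup.of z) ∈ FA (A ∩ B)) (hα : ∀ r ∈ R₂, α r = 1)
    (hβB : ∀ z ∈ B, β (FreeGroup.of z) = FreeGroup.of z)
    (hβA : ∀ z ∈ A, β (FreeGroup.of z) ∈ FA (A ∩ B)) (hβ : ∀ r ∈ R₁, β r = 1)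
    (rs₁ : RS (PresentedGroup R₁)) (rs₂ : RS (PresentedGroup R₂)) :
    RS (PresentedGroup (R₁ ∪ R₂)) := by
  classical
  intro g hg
  set π := PresentedGroup.mk (R₁ ∪ R₂) with hπ
  have htop : (FA A).map π ⊔ (FA B).map π = ⊤ := by
    rw [← Subgroup.map_sup, FA_sup_eq_top hAB, ← MonoidHom.range_eq_map,
      MonoidHom.range_eq_top]
    exact PresentedGroup.mk_surjective _
  have hfixα : ∀ c ∈ FA (A ∩ B), α c = c := fun c hc =>
    fix_of_FA α (fun z hz => hαA z hz.1) hc
  refine amalg (C := (FA (A ∩ B)).map π) le_rfl le_rfl htop ?_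
    (map_mono (FA_mono Set.inter_subset_left)) (map_mono (FA_mono Set.inter_subset_right))
    (desc (π.comp (α.comp β)) fun r hr => ?_) ?_ ?_ ?_ ?_ ?_ (htop ▸ mem_top g) hg
  · intro T _ ι τ hτ
    let f : FreeGroup Z →* T := FreeGroup.lift fun y => if y ∈ A then ι (π (FreeGroup.of y))
      else τ * ι (π (FreeGroup.of y)) * τ⁻¹
    have hfA : ∀ p ∈ FA A, f p = ι (π p) := fun p hp =>
      eq_of_FA f (ι.comp π) (fun z hz => by simp [f, hz]) hp
    have hfB : ∀ p ∈ FA B, f p = τ * ι (π p) * τ⁻¹ := fun p hp =>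
      eq_of_FA f ((MulAut.conj τ).toMonoidHom.comp (ι.comp π)) (fun z hz => by
        by_cases hzA : z ∈ A
        · have := hτ _ ⟨_, of_mem_FA ⟨hzA, hz⟩, rfl⟩
          simp [f, hzA, this]
        · simp [f, hzA]) hp
    refine ⟨desc f fun r hr => ?_, ?_, ?_⟩
    · have h1 : π r = 1 := PresentedGroup.one_of_mem hr
      rcases hr with hr | hr
      · rw [hfA r (h₁ r hr), h1, map_one]
      · rw [hfB r (h₂ r hr), h1, map_one, mul_one, mul_inv_cancel]
    · rintro _ ⟨p, hp, rfl⟩
      exact hfA p hp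
    · rintro _ ⟨p, hp, rfl⟩
      exact hfB p hp
  · rcases hr with hr | hr
    · simp [hβ r hr]
    · simp [fix_of_FA β hβB (h₂ r hr), hα r hr]
  · rintro _ ⟨c, hc, rfl⟩
    change π (α (β c)) = π c
    rw [fix_of_FA β (fun z hz => hβB z hz.2) hc, hfixα c hc]
  · rintro _ ⟨p, hp, rfl⟩
    have := map_mem_of_FA β hβA hp
    exact ⟨β p, this, by change _ = π (α (β p)); rw [hfixα _ this]⟩
  · rintro _ ⟨p, hp, rfl⟩
    exact ⟨α p, map_mem_of_FA α hαB hp, by
      change _ = π (α (β p)); rw [fix_of_FA β hβB hp]⟩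
  · rintro _ ⟨p, hp, rfl⟩ hd
    refine mk_eq_one_of_fix Set.subset_union_left rs₁ α (fun r hr => ?_) (fix_of_FA α hαA hp) hd
    rcases hr with hr | hr
    · right; rwa [fix_of_FA α hαA (h₁ r hr)]
    · exact Or.inl (hα r hr)
  · rintro _ ⟨p, hp, rfl⟩ hd
    refine mk_eq_one_of_fix Set.subset_union_right rs₂ β (fun r hr => ?_) (fix_of_FA β hβB hp) hd
    rcases hr with hr | hr
    · exact Or.inl (hβ r hr)
    · right; rwa [fix_of_FA β hβB (h₂ r hr)]

section Line

variable (l : Z → ℤ) (M : ℕ) (w : ℤ → FreeGroup Z)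

/-- The relators can be killed one at a time from below. -/
def KillBelow : Prop := ∀ k : ℤ, ∃ β : FreeGroup Z →* FreeGroup Z,
  (∀ z, k < l z → β (FreeGroup.of z) = FreeGroup.of z) ∧
  (∀ z, l z ≤ k → β (FreeGroup.of z) ∈ FA {z | k < l z ∧ l z ≤ k + M}) ∧ β (w k) = 1

variable {l M w}

theorem KillBelow.exists_all (h : KillBelow l M w) (hw : ∀ k, w k ∈ FA {z | k ≤ l z}) (b : ℤ) :
    ∃ β : FreeGroup Z →* FreeGroup Z, (∀ z, b ≤ l z → β (FreeGroup.of z) = FreeGroup.of z) ∧
      (∀ z, l z < b → β (FreeGroup.of z) ∈ FA {z | b ≤ l z ∧ l z < b + M}) ∧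
      ∀ k < b, β (w k) = 1 := by
  choose β hfix hmem hkill using h
  let γ : ℕ → FreeGroup Z →* FreeGroup Z := fun n =>
    Nat.rec (MonoidHom.id _) (fun n γ => γ.comp (β (b - 1 - n))) n
  have hγ : ∀ n : ℕ, γ (n + 1) = (γ n).comp (β (b - 1 - n)) := fun n => rfl
  have hstab : ∀ (z : Z) (n m : ℕ), b - n ≤ l z → γ (n + m) (FreeGroup.of z) =
      γ n (FreeGroup.of z) := by
    intro z n m hz
    induction m with
    | zero => rfl
    | succ m ih =>
      rw [← add_assoc, hγ, MonoidHom.comp_apply, hfix _ _ (by push_cast; omega), ih]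
  have hin : ∀ (n : ℕ) (z : Z), b - n ≤ l z → l z < b + M →
      γ n (FreeGroup.of z) ∈ FA {z | b ≤ l z ∧ l z < b + M} := by
    intro n
    induction n with
    | zero => intro z h1 h2; exact of_mem_FA ⟨by simpa using h1, h2⟩
    | succ n ih =>
      intro z h1 h2
      rw [hγ, MonoidHom.comp_apply]
      by_cases hz : b - 1 - n < l z
      · rw [hfix _ _ hz]
        exact ih z (by omega) h2
      · exact map_mem_of_FA (γ n) (fun y hy => ih y (by have := hy.1; omega)
          (by have := hy.2; omega)) (hmem _ _ (not_lt.1 hz))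
  let δ : FreeGroup Z →* FreeGroup Z :=
    FreeGroup.lift fun z => γ (b - l z).toNat (FreeGroup.of z)
  have hδ : ∀ (n : ℕ) (z : Z), b - n ≤ l z → δ (FreeGroup.of z) = γ n (FreeGroup.of z) := by
    intro n z hz
    obtain ⟨m, rfl⟩ : ∃ m, n = (b - l z).toNat + m := ⟨n - (b - l z).toNat, by omega⟩
    rw [hstab z _ m (by omega)]
    exact FreeGroup.lift_apply_of
  refine ⟨δ, fun z hz => hδ 0 z (by simpa using hz), fun z hz => ?_, fun k hk => ?_⟩
  · rw [hδ (b - l z).toNat z (by omega)]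
    exact hin _ z (by omega) (by omega)
  · obtain ⟨n, rfl⟩ : ∃ n : ℕ, k = b - 1 - n := ⟨(b - 1 - k).toNat, by omega⟩
    rw [eq_of_FA δ (γ (n + 1)) (fun z hz => hδ (n + 1) z (by
      have : b - 1 - n ≤ l z := hz
      push_cast; omega)) (hw _), hγ, MonoidHom.comp_apply, hkill, map_one]

theorem rs_line (hw : ∀ k, w k ∈ FA {z | k ≤ l z ∧ l z ≤ k + M}) (hb : KillBelow l M w)
    (ha : KillBelow (fun z => -l z) M fun k => w (-k - M))
    (hrs : ∀ k, RS (PresentedGroup {w k})) : RS (PresentedGroup (Set.range w)) := by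
  have hbelow := hb.exists_all fun k => FA_mono (fun z hz => hz.1) (hw k)
  have habove : ∀ b : ℤ, ∃ α : FreeGroup Z →* FreeGroup Z,
      (∀ z, l z < b + M → α (FreeGroup.of z) = FreeGroup.of z) ∧
      (∀ z, b + M ≤ l z → α (FreeGroup.of z) ∈ FA {z | b ≤ l z ∧ l z < b + M}) ∧
      ∀ k, b ≤ k → α (w k) = 1 := fun b => by
    obtain ⟨α, h1, h2, h3⟩ := ha.exists_all (fun k => FA_mono (fun z hz => by
      have := hz.2
      change k ≤ -l z
      omega) (hw _)) (1 - b - M)
    refine ⟨α, fun z hz => h1 z (by omega), fun z hz => FA_mono (fun y hy => ?_)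
      (h2 z (by omega)), fun k hk => ?_⟩
    · have h4 : 1 - b - M ≤ -l y := hy.1
      have h5 : -l y < 1 - b - M + M := hy.2
      exact ⟨by omega, by omega⟩
    · have := h3 (-k - M) (by omega)
      rwa [show -(-k - M) - M = k by ring] at this
  have hfin : ∀ (a : ℤ) (n : ℕ), RS (PresentedGroup (w '' Set.Icc a (a + n))) := by
    intro a n
    induction n with
    | zero =>
      have : w '' Set.Icc a (a + (0 : ℕ)) = {w a} := by simp
      rw [this]
      exact hrs a
    | succ n ih =>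
      have hI : w '' Set.Icc a (a + (n + 1 : ℕ)) = w '' Set.Icc a (a + n) ∪ {w (a + n + 1)} := by
        rw [← Set.image_singleton, ← Set.image_union]
        congr 1
        ext k
        simp only [Set.mem_Icc, Set.mem_union, Set.mem_singleton_iff]
        push_cast
        omega
      rw [hI]
      obtain ⟨α, a1, a2, a3⟩ := habove (a + n + 1)
      obtain ⟨β, b1, b2, b3⟩ := hbelow (a + n + 1)
      refine rs_two (A := {z | l z < a + n + 1 + M}) (B := {z | a + n + 1 ≤ l z})
        (fun z => by simp only [Set.mem_ofPred_eq]; omega) ?_ ?_ α β a1 (fun z hz => ?_) ?_ b1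
        (fun z hz => ?_) ?_ ih (hrs _)
      · rintro _ ⟨k, hk, rfl⟩
        exact FA_mono (fun z hz => by
          have h1 := hz.2
          have h2 := hk.2
          change l z < _
          omega) (hw k)
      · rintro _ rfl
        exact FA_mono (fun z hz => hz.1) (hw _)
      · by_cases h : l z < a + n + 1 + M
        · rw [a1 z h]; exact of_mem_FA (Set.mem_inter h hz)
        · exact FA_mono (fun y hy => Set.mem_inter hy.2 hy.1) (a2 z (not_lt.1 h))
      · rintro _ rfl
        exact a3 _ le_rfl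
      · by_cases h : a + n + 1 ≤ l z
        · rw [b1 z h]; exact of_mem_FA (Set.mem_inter hz h)
        · exact FA_mono (fun y hy => Set.mem_inter hy.2 hy.1) (b2 z (not_le.1 h))
      · rintro _ ⟨k, hk, rfl⟩
        exact b3 k (by have := hk.2; omega)
  intro g hg
  obtain ⟨g, rfl⟩ := PresentedGroup.mk_surjective _ g
  obtain ⟨S, hS⟩ := exists_finset_mem_FA g
  obtain ⟨L, hL⟩ : ∃ L : ℕ, ∀ z ∈ S, (l z).natAbs ≤ L :=
    ⟨S.sup fun z => (l z).natAbs, fun z hz => Finset.le_sup (f := fun z => (l z).natAbs) hz⟩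
  obtain ⟨α, a1, -, a3⟩ := habove (-L + (2 * L : ℕ) + 1)
  obtain ⟨β, b1, -, b3⟩ := hbelow (-L)
  refine mk_eq_one_of_fix (Set.image_subset_range _ _) (hfin (-L) (2 * L)) (α.comp β) ?_
    (fix_of_FA _ (fun z hz => ?_) hS) hg
  · rintro _ ⟨k, rfl⟩
    by_cases h1 : k < -L
    · left; simp [b3 k h1]
    · have h2 : β (w k) = w k := fix_of_FA β (fun z hz => b1 z (by have := hz.1; omega)) (hw k)
      by_cases h3 : -L + (2 * L : ℕ) + 1 ≤ k
      · left; rw [MonoidHom.comp_apply, h2, a3 k h3]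
      · right
        rw [MonoidHom.comp_apply, h2,
          fix_of_FA α (fun z hz => a1 z (by have := hz.2; omega)) (hw k)]
        exact ⟨k, ⟨by omega, by omega⟩, rfl⟩
  · have := hL z hz
    rw [MonoidHom.comp_apply, b1 z (by omega), a1 z (by omega)]

end Line

end Pool.Agent.Lib.MP_3f0e2e_al
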