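import Pool.Agent.Lib.MP_3f0e2e_al.Line
import Pool.Agent.Lib.MP_3f0e2e_al.Hall

/-! One-relator groups whose relator is a basic commutator are residually solvable. -/

namespace Pool.Agent.Lib.MP_3f0e2e_al

open Subgroup

variable {Z : Type}

theorem exists_kill {S T : Set Z} (hST : ∀ z ∈ S, z ∉ T) {z₀ : Z} (hz₀ : z₀ ∈ T)
    {p q : FreeGroup Z} (hp : p ∈ FA S) (hq : q ∈ FA S) {ε : ℤ} (hε : ε = 1 ∨ ε = -1) :
    ∃ β : FreeGroup Z →* FreeGroup Z, (∀ z, z ∉ T → β (FreeGroup.of z) = FreeGroup.of z) ∧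
      (∀ z ∈ T, β (FreeGroup.of z) ∈ FA S) ∧ β (p * FreeGroup.of z₀ ^ ε * q) = 1 := by
  classical
  let β : FreeGroup Z →* FreeGroup Z := FreeGroup.lift fun z =>
    if z = z₀ then (p⁻¹ * q⁻¹) ^ ε else if z ∈ T then 1 else FreeGroup.of z
  have h1 : ∀ z, z ∉ T → β (FreeGroup.of z) = FreeGroup.of z := fun z hz => by
    have : z ≠ z₀ := fun h => hz (h ▸ hz₀)
    simp [β, this, hz]
  refine ⟨β, h1, fun z hz => ?_, ?_⟩
  · by_cases h : z = z₀
    · simp only [β, FreeGroup.lift_apply_of, if_pos h]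
      exact zpow_mem (mul_mem (inv_mem hp) (inv_mem hq)) _
    · simp only [β, FreeGroup.lift_apply_of, if_neg h, if_pos hz]
      exact one_mem _
  · have h2 : β (FreeGroup.of z₀) = (p⁻¹ * q⁻¹) ^ ε := by simp [β]
    rw [map_mul, map_mul, map_zpow, h2, fix_of_FA β (fun z hz => h1 z (hST z hz)) hp,
      fix_of_FA β (fun z hz => h1 z (hST z hz)) hq]
    rcases hε with rfl | rfl <;> simp

theorem rs_aut {w : FreeGroup Z} (h : RS (PresentedGroup {w})) (θ θ' : FreeGroup Z →* FreeGroup Z)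
    (h1 : ∀ z, θ (θ' (FreeGroup.of z)) = FreeGroup.of z) (h2 : θ' (θ w) = w) :
    RS (PresentedGroup {θ w}) := by
  let φ : PresentedGroup {θ w} →* PresentedGroup {w} :=
    PresentedGroup.map θ' (by rintro _ rfl; exact h2)
  let ψ : PresentedGroup {w} →* PresentedGroup {θ w} :=
    PresentedGroup.map θ (by rintro _ rfl; rfl)
  have : ψ.comp φ = MonoidHom.id _ := PresentedGroup.ext fun z =>
    congrArg (PresentedGroup.mk {θ w}) (h1 z)
  exact h.of_injective φ (Function.LeftInverse.injective (g := ψ) fun g => DFunLike.congr_fun this g)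

theorem rs_letter (z₀ : Z) : RS (PresentedGroup {FreeGroup.of z₀}) := by
  classical
  let κ : FreeGroup Z →* FreeGroup Z :=
    FreeGroup.lift fun z => if z = z₀ then 1 else FreeGroup.of z
  let φ : PresentedGroup {FreeGroup.of z₀} →* FreeGroup Z :=
    desc κ (by rintro _ rfl; simp [κ])
  have : (PresentedGroup.mk {FreeGroup.of z₀}).comp φ = MonoidHom.id _ :=
    PresentedGroup.ext fun z => by
      change PresentedGroup.mk _ (κ (FreeGroup.of z)) = PresentedGroup.mk _ (FreeGroup.of z)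
      by_cases h : z = z₀
      · rw [h, PresentedGroup.one_of_mem (Set.mem_singleton (FreeGroup.of z₀))]
        simp [κ]
      · simp [κ, h]
  exact (rs_free Z).of_injective φ (Function.LeftInverse.injective
    (g := PresentedGroup.mk {FreeGroup.of z₀}) fun g => DFunLike.congr_fun this g)

theorem rs_of_ker {K G A : Type} [Group K] [Group G] [CommGroup A] (hK : RS K) (ι : K →* G)
    (hι : Function.Injective ι) (χ : G →* A) (h : χ.ker ≤ ι.range) : RS G := by
  have key : ∀ m, derivedSeries G (m + 1) ≤ (derivedSeries K m).map ι := by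
    intro m
    induction m with
    | zero =>
      rw [derivedSeries_zero, ← MonoidHom.range_eq_map, zero_add, derivedSeries_one]
      exact (Abelianization.commutator_subset_ker χ).trans h
    | succ m ih =>
      rw [derivedSeries_succ, derivedSeries_succ K, map_commutator]
      exact commutator_mono ih ih
  intro g hg
  obtain ⟨n, -, rfl⟩ := key 0 (hg 1)
  rw [hK n fun m => ?_, map_one]
  obtain ⟨n', hn', h'⟩ := key m (hg (m + 1))
  exact hι h' ▸ hn'

/-- The commutator `[z, t, ..., t]` conjugated by `t ^ k`, written in the conjugates of `z`. -/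
def yw (z : Z) : ℕ → ℤ → FreeGroup (Z × ℤ)
  | 0, k => FreeGroup.of (z, k)
  | m + 1, k => (yw z m k)⁻¹ * yw z m (k + 1)

/-- The shift. -/
def shift (j : ℤ) : FreeGroup (Z × ℤ) →* FreeGroup (Z × ℤ) :=
  FreeGroup.map fun p => (p.1, p.2 + j)

theorem shift_of (j : ℤ) (p : Z × ℤ) :
    shift j (FreeGroup.of p) = FreeGroup.of (p.1, p.2 + j) := FreeGroup.map.of

theorem shift_yw (j : ℤ) (z : Z) (m : ℕ) : ∀ k, shift j (yw z m k) = yw z m (k + j) := by
  induction m with
  | zero => intro k; exact shift_of _ _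
  | succ m ih => intro k; rw [yw, yw, map_mul, map_inv, ih, ih, add_right_comm]

theorem yw_mem (z : Z) (m : ℕ) : ∀ k, yw z m k ∈ FA {p : Z × ℤ | k ≤ p.2 ∧ p.2 ≤ k + m} := by
  induction m with
  | zero => intro k; exact of_mem_FA ⟨le_rfl, by simp⟩
  | succ m ih =>
    intro k
    refine mul_mem (inv_mem (FA_mono (fun p hp => And.intro hp.1 ?_) (ih k)))
      (FA_mono (fun p hp => And.intro ?_ ?_) (ih (k + 1)))
    · have := hp.2; push_cast; omega
    · have := hp.1; omega
    · have := hp.2; push_cast; omega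

theorem yw_top (z : Z) (m : ℕ) : ∀ k, ∃ p ∈ FA {p : Z × ℤ | k ≤ p.2 ∧ p.2 < k + m},
    ∃ q ∈ FA {p : Z × ℤ | k ≤ p.2 ∧ p.2 < k + m},
      yw z m k = p * FreeGroup.of (z, k + m) ^ (1 : ℤ) * q := by
  induction m with
  | zero => intro k; exact ⟨1, one_mem _, 1, one_mem _, by simp [yw]⟩
  | succ m ih =>
    intro k
    obtain ⟨p, hp, q, hq, h⟩ := ih (k + 1)
    have hsub : {p : Z × ℤ | k + 1 ≤ p.2 ∧ p.2 < k + 1 + m} ⊆
        {p : Z × ℤ | k ≤ p.2 ∧ p.2 < k + (m + 1 : ℕ)} := fun x hx => by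
      have h1 := hx.1
      have h2 := hx.2
      exact ⟨by omega, by push_cast; omega⟩
    refine ⟨(yw z m k)⁻¹ * p, mul_mem
      (inv_mem (FA_mono (fun x hx => And.intro hx.1 ?_) (yw_mem z m k))) (FA_mono hsub hp), q, FA_mono hsub hq, ?_⟩
    · have := hx.2; push_cast; omega
    · rw [yw, h, show k + ((m + 1 : ℕ) : ℤ) = k + 1 + m by push_cast; ring]
      simp only [mul_assoc]

theorem yw_bot (z : Z) (m : ℕ) (k : ℤ) : ∃ p ∈ FA {p : Z × ℤ | k < p.2 ∧ p.2 ≤ k + m},
    ∃ q ∈ FA {p : Z × ℤ | k < p.2 ∧ p.2 ≤ k + m}, ∃ ε : ℤ, (ε = 1 ∨ ε = -1) ∧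
      yw z m k = p * FreeGroup.of (z, k) ^ ε * q := by
  induction m with
  | zero => exact ⟨1, one_mem _, 1, one_mem _, 1, Or.inl rfl, by simp [yw]⟩
  | succ m ih =>
    obtain ⟨p, hp, q, hq, ε, hε, h⟩ := ih
    have hsub : {p : Z × ℤ | k < p.2 ∧ p.2 ≤ k + m} ⊆
        {p : Z × ℤ | k < p.2 ∧ p.2 ≤ k + (m + 1 : ℕ)} := fun x hx =>
      ⟨hx.1, by have := hx.2; push_cast; omega⟩
    refine ⟨q⁻¹, inv_mem (FA_mono hsub hq), p⁻¹ * yw z m (k + 1), mul_mem
      (inv_mem (FA_mono hsub hp)) (FA_mono (fun x hx => And.intro ?_ ?_) (yw_mem z m (k + 1))),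
      -ε, by omega, ?_⟩
    · have := hx.1; omega
    · have := hx.2; push_cast; omega
    · rw [yw, h]
      group

theorem exists_theta : ∃ θ θ' : FreeGroup (Z × ℤ) →* FreeGroup (Z × ℤ),
    (∀ (z : Z) (i : ℕ), θ (FreeGroup.of (z, (i : ℤ))) = yw z i 0) ∧
    (∀ p, θ (θ' (FreeGroup.of p)) = FreeGroup.of p) ∧
    ∀ (z : Z) (i : ℕ), θ' (yw z i 0) = FreeGroup.of (z, (i : ℤ)) := by
  let θ : FreeGroup (Z × ℤ) →* FreeGroup (Z × ℤ) := FreeGroup.lift fun p =>
    if 0 ≤ p.2 then yw p.1 p.2.toNat 0 else FreeGroup.of p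
  let s : FreeGroup (Z × ℤ) →* FreeGroup (Z × ℤ) := FreeGroup.lift fun p =>
    if 0 ≤ p.2 then FreeGroup.of p * FreeGroup.of (p.1, p.2 + 1) else FreeGroup.of (p.1, p.2 + 1)
  let θ' : FreeGroup (Z × ℤ) →* FreeGroup (Z × ℤ) := FreeGroup.lift fun p =>
    if 0 ≤ p.2 then s^[p.2.toNat] (FreeGroup.of (p.1, 0)) else FreeGroup.of p
  have hθ : ∀ (z : Z) (i : ℕ), θ (FreeGroup.of (z, (i : ℤ))) = yw z i 0 := fun z i => by
    simp [θ]
  have hθ' : ∀ (z : Z) (i : ℕ), θ' (FreeGroup.of (z, (i : ℤ))) = s^[i] (FreeGroup.of (z, 0)) :=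
    fun z i => by simp [θ']
  have hs : ∀ (z : Z) (i : ℕ), s (FreeGroup.of (z, (i : ℤ))) =
      FreeGroup.of (z, (i : ℤ)) * FreeGroup.of (z, ((i + 1 : ℕ) : ℤ)) := fun z i => by simp [s]
  have hθn : ∀ (z : Z) (i : ℤ), i ≤ 0 → θ (FreeGroup.of (z, i)) = FreeGroup.of (z, i) := by
    intro z i hi
    rcases hi.eq_or_lt with rfl | hi
    · exact hθ z 0
    · simp [θ, not_le.2 hi]
  have hθn' : ∀ (z : Z) (i : ℤ), i ≤ 0 → θ' (FreeGroup.of (z, i)) = FreeGroup.of (z, i) := by
    intro z i hi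
    rcases hi.eq_or_lt with rfl | hi
    · exact hθ' z 0
    · simp [θ', not_le.2 hi]
  have hsn : ∀ (z : Z) (i : ℤ), i < 0 → s (FreeGroup.of (z, i)) = FreeGroup.of (z, i + 1) :=
    fun z i hi => by simp [s, not_le.2 hi]
  have h1 : θ.comp s = (shift 1).comp θ := FreeGroup.ext_hom _ _ fun ⟨z, i⟩ => by
    simp only [MonoidHom.comp_apply]
    rcases le_or_gt 0 i with hi | hi
    · obtain ⟨i, rfl⟩ := Int.eq_ofNat_of_zero_le hi
      rw [hs, map_mul, hθ, hθ, shift_yw, yw, mul_inv_cancel_left]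
    · rw [hsn z i hi, hθn z _ (by omega), hθn z _ hi.le, shift_of]
  have h2 : θ'.comp (shift 1) = s.comp θ' := FreeGroup.ext_hom _ _ fun ⟨z, i⟩ => by
    simp only [MonoidHom.comp_apply, shift_of]
    rcases le_or_gt 0 i with hi | hi
    · obtain ⟨i, rfl⟩ := Int.eq_ofNat_of_zero_le hi
      rw [← Nat.cast_succ, hθ', hθ', Function.iterate_succ_apply']
    · rw [hθn' z _ (by omega), hθn' z _ hi.le, hsn z i hi]
  refine ⟨θ, θ', hθ, fun ⟨z, i⟩ => ?_, fun z i => ?_⟩
  · rcases le_or_gt 0 i with hi | hi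
    · obtain ⟨i, rfl⟩ := Int.eq_ofNat_of_zero_le hi
      rw [hθ']
      induction i with
      | zero => exact hθ z 0
      | succ i ih =>
        rw [Function.iterate_succ_apply', ← MonoidHom.comp_apply, h1, MonoidHom.comp_apply,
          ih (by omega), shift_of, Nat.cast_succ]
    · rw [hθn' z _ hi.le, hθn z _ hi.le]
  · induction i with
    | zero => exact hθ' z 0
    | succ i ih =>
      rw [yw, map_mul, map_inv, ← shift_yw, ← MonoidHom.comp_apply θ' (shift 1), h2,
        MonoidHom.comp_apply, ih, hs, inv_mul_cancel_left]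

theorem rs_kernel {Y : Type} (f : Y → Z) (c : FreeMagma (Y × ℕ))
    (h : RS (PresentedGroup {ev (fun p : Y × ℕ => FreeGroup.of (f p.1, (p.2 : ℤ))) c})) :
    RS (PresentedGroup (Set.range fun k : ℤ => ev (fun p : Y × ℕ => yw (f p.1) p.2 k) c)) := by
  obtain ⟨⟨y, M⟩, hy, hM⟩ := exists_max_leaf c
  refine rs_line (l := Prod.snd) (M := M) (fun k => ev_mem fun p hp => FA_mono
    (fun x hx => And.intro hx.1 ?_) (yw_mem _ _ k)) (fun k => ?_) (fun k => ?_) fun k => ?_
  · have h1 := hx.2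
    have h2 : p.2 ≤ M := hM p hp
    omega
  · obtain ⟨p, hp, q, hq, ε, hε, h1⟩ := yw_bot (f y) M k
    obtain ⟨β, b1, b2, b3⟩ := exists_kill (T := {x : Z × ℤ | x.2 ≤ k}) (z₀ := (f y, k))
      (fun x hx hx' => absurd hx.1 (not_lt.2 hx')) (le_refl k) hp hq hε
    refine ⟨β, fun z hz => b1 z (not_le.2 hz), b2, ?_⟩
    rw [map_ev]
    exact ev_eq_one hy (by rw [h1]; exact b3)
  · obtain ⟨p, hp, q, hq, h1⟩ := yw_top (f y) M (-k - M)
    obtain ⟨β, b1, b2, b3⟩ := exists_kill (T := {x : Z × ℤ | -x.2 ≤ k})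
      (z₀ := (f y, -k - M + M)) (fun x hx hx' => by
        have h2 := hx.2
        have h3 : -x.2 ≤ k := hx'
        omega) (by change -(-k - M + M) ≤ k; omega) hp hq (Or.inl rfl)
    refine ⟨β, fun z hz => b1 z (not_le.2 hz), fun z hz => FA_mono (fun x hx => ?_) (b2 z hz), ?_⟩
    · have h2 := hx.1
      have h3 := hx.2
      exact ⟨by change k < -x.2; omega, by change -x.2 ≤ k + M; omega⟩
    · rw [map_ev]
      exact ev_eq_one hy (by rw [h1]; exact b3)
  · obtain ⟨θ, θ', h1, h2, h3⟩ := exists_theta (Z := Z)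
    have h4 := rs_aut h θ θ' h2 (by simp only [map_ev, h1, h3])
    have h5 := rs_aut h4 (shift k) (shift (-k)) (fun z => by simp [shift_of])
      (by simp only [map_ev, h1, shift_yw]; simp)
    have h6 : shift k (θ (ev (fun p : Y × ℕ => FreeGroup.of (f p.1, (p.2 : ℤ))) c)) =
        ev (fun p : Y × ℕ => yw (f p.1) p.2 k) c := by
      simp only [map_ev, h1, shift_yw, zero_add]
    rw [h6] at h5
    exact h5

theorem rs_step {Y : Type} (f : Y → Z) (hf : Function.Injective f) (t : Y)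
    (c : FreeMagma (Y × ℕ)) (hc : NoT t c)
    (h : RS (PresentedGroup (Set.range fun k : ℤ => ev (fun p : Y × ℕ => yw (f p.1) p.2 k) c))) :
    RS (PresentedGroup {ev (fun y => FreeGroup.of (f y)) (subst t c)}) := by
  classical
  set R := Set.range fun k : ℤ => ev (fun p : Y × ℕ => yw (f p.1) p.2 k) c with hR
  set R₀ : Set (FreeGroup Z) := {ev (fun y => FreeGroup.of (f y)) (subst t c)} with hR₀
  let sh : ℤ → PresentedGroup R →* PresentedGroup R := fun j =>
    PresentedGroup.map (shift j) (by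
      rintro _ ⟨k, rfl⟩
      exact ⟨k + j, by simp only [map_ev, shift_yw]⟩)
  have hsh : ∀ j g, sh j (PresentedGroup.mk R g) = PresentedGroup.mk R (shift j g) :=
    fun _ _ => rfl
  have hsh' : ∀ j p, sh j (PresentedGroup.of p) = PresentedGroup.of (p.1, p.2 + j) :=
    fun j p => by rw [PresentedGroup.of, hsh, shift_of]; rfl
  let a : Multiplicative ℤ →* MulAut (PresentedGroup R) :=
    { toFun := fun j => MonoidHom.toMulEquiv (sh j.toAdd) (sh (-j.toAdd))
        (PresentedGroup.ext fun p => by simp [hsh']) (PresentedGroup.ext fun p => by simp [hsh'])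
      map_one' := MulEquiv.toMonoidHom_injective (PresentedGroup.ext fun p => by simp [hsh'])
      map_mul' := fun i j => MulEquiv.toMonoidHom_injective (PresentedGroup.ext fun p => by
        simp [hsh', add_comm, add_left_comm]) }
  have ha : ∀ j g, a j g = sh j.toAdd g := fun _ _ => rfl
  have hrs : RS (PresentedGroup R ⋊[a] Multiplicative ℤ) :=
    rs_of_ker h SemidirectProduct.inl SemidirectProduct.inl_injective SemidirectProduct.rightHom
      SemidirectProduct.range_inl_eq_ker_rightHom.ge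
  let φ₀ : FreeGroup Z →* PresentedGroup R ⋊[a] Multiplicative ℤ := FreeGroup.lift fun z =>
    if z = f t then SemidirectProduct.inr (Multiplicative.ofAdd 1)⁻¹
    else SemidirectProduct.inl (PresentedGroup.of (z, 0))
  have hφt : φ₀ (FreeGroup.of (f t)) = SemidirectProduct.inr (Multiplicative.ofAdd 1)⁻¹ := by
    simp only [φ₀, FreeGroup.lift_apply_of, if_true]
  have hφz : ∀ z, z ≠ f t → φ₀ (FreeGroup.of z) =
      SemidirectProduct.inl (PresentedGroup.of (z, 0)) := fun z hz => by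
    simp only [φ₀, FreeGroup.lift_apply_of, if_neg hz]
  have hφeta : ∀ y, y ≠ t → ∀ i, ev (fun y => φ₀ (FreeGroup.of (f y))) (eta t y i) =
      SemidirectProduct.inl (PresentedGroup.mk R (yw (f y) i 0)) := by
    intro y hy i
    induction i with
    | zero => exact hφz _ fun h => hy (hf h)
    | succ i ih =>
      rw [eta, ev, ih, ev, hφt, yw, map_mul, map_mul, map_inv, map_inv, ← shift_yw, ← hsh,
        show sh 1 = fun g => a (Multiplicative.ofAdd 1) g from rfl]
      simp only [SemidirectProduct.inl_aut, map_inv, inv_inv, mul_assoc]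
  let φ : PresentedGroup R₀ →* PresentedGroup R ⋊[a] Multiplicative ℤ := desc φ₀ (by
    rintro _ rfl
    rw [map_ev, ev_subst, ev_congr fun p hp => hφeta p.1 (hc p hp) p.2,
      ← map_ev SemidirectProduct.inl fun p : Y × ℕ => PresentedGroup.mk R (yw (f p.1) p.2 0),
      ← map_ev (PresentedGroup.mk R), PresentedGroup.one_of_mem (rels := R) ⟨0, rfl⟩, map_one])
  let T : PresentedGroup R₀ := PresentedGroup.of (f t)
  let ψ₀ : FreeGroup (Z × ℤ) →* PresentedGroup R₀ := FreeGroup.lift fun p =>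
    T ^ (-p.2) * PresentedGroup.of p.1 * T ^ p.2
  have hψeta : ∀ y i k, ψ₀ (yw (f y) i k) = MulAut.conj (T ^ (-k))
      (ev (fun y => PresentedGroup.mk R₀ (FreeGroup.of (f y))) (eta t y i)) := by
    intro y i
    induction i with
    | zero =>
      intro k
      rw [MulAut.conj_apply, ← zpow_neg, neg_neg]
      exact FreeGroup.lift_apply_of
    | succ i ih =>
      intro k
      rw [yw, map_mul, map_inv, ih, ih, eta, ev, ev]
      simp only [MulAut.conj_apply]
      change _ = T ^ (-k) * (_ * T⁻¹ * _ * T) * _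
      group
  let ψ₁ : PresentedGroup R →* PresentedGroup R₀ := desc ψ₀ (by
    rintro _ ⟨k, rfl⟩
    simp only [map_ev, hψeta]
    have := map_ev (MulAut.conj (T ^ (-k))).toMonoidHom
      (fun p : Y × ℕ => ev (fun y => PresentedGroup.mk R₀ (FreeGroup.of (f y))) (eta t p.1 p.2)) c
    rw [← ev_subst, ← map_ev, PresentedGroup.one_of_mem (rels := R₀) rfl, map_one] at this
    exact this.symm)
  have hψ₁ : ∀ p : Z × ℤ, ψ₁ (PresentedGroup.of p) =
      T ^ (-p.2) * PresentedGroup.of p.1 * T ^ p.2 := fun p => FreeGroup.lift_apply_of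
  let ψ : PresentedGroup R ⋊[a] Multiplicative ℤ →* PresentedGroup R₀ :=
    SemidirectProduct.lift ψ₁ (zpowersHom _ T⁻¹) fun j => PresentedGroup.ext fun p => by
      change ψ₁ (sh j.toAdd (PresentedGroup.of p)) =
        T⁻¹ ^ j.toAdd * ψ₁ (PresentedGroup.of p) * (T⁻¹ ^ j.toAdd)⁻¹
      rw [hsh', hψ₁, hψ₁]
      group
  have hid : ψ.comp φ = MonoidHom.id _ := PresentedGroup.ext fun z => by
    change ψ (φ₀ (FreeGroup.of z)) = PresentedGroup.of z
    by_cases hz : z = f t
    · rw [hz, hφt]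
      simp [ψ, T]
    · rw [hφz z hz]
      simp [ψ, hψ₁]
  exact hrs.of_injective φ (Function.LeftInverse.injective (g := ψ) fun g =>
    DFunLike.congr_fun hid g)

theorem rs_hall (n : ℕ) : ∀ (Y Z : Type) (f : Y → Z), Function.Injective f →
    ∀ (r : FreeMagma Y → FreeMagma Y → Prop) (c : FreeMagma Y), c.length ≤ n → Hall r c →
      RS (PresentedGroup {ev (fun y => FreeGroup.of (f y)) c}) := by
  induction n with
  | zero => intro Y Z f _ r c hc _; exact absurd (FreeMagma.length_pos c) (by omega)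
  | succ n ih =>
    intro Y Z f hf r c hc h
    obtain ⟨t, ht, hmin⟩ := h.exists_min
    by_cases hct : c = .of t
    · rw [hct]
      exact rs_letter (f t)
    · obtain ⟨c', h1, rfl, -⟩ := h.exists_subst ht hmin c (.refl c) hct
      refine rs_step f hf t c' h1 (rs_kernel f c' ?_)
      refine ih (Y × ℕ) (Z × ℤ) (fun p => (f p.1, (p.2 : ℤ))) (fun p q hpq => ?_) _ c' ?_
        (h.of_subst h1)
      · rw [Prod.mk.injEq] at hpq
        exact Prod.ext (hf hpq.1) (by exact_mod_cast hpq.2)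
      · have := length_lt_subst h1 ht
        omega

theorem RS.exists_solvable {G : Type} [Group G] (h : RS G) (g : G) (hg : g ≠ 1) :
    ∃ (S : Type) (_ : Group S) (φ : G →* S),
      Group.IsSolvable S ∧ Function.Surjective φ ∧ φ g ≠ 1 := by
  obtain ⟨m, hm⟩ := not_forall.1 fun hd => hg (h g hd)
  have := derivedSeries_normal G m
  refine ⟨G ⧸ derivedSeries G m, inferInstance, QuotientGroup.mk' _, ⟨⟨m, ?_⟩⟩,
    QuotientGroup.mk'_surjective _, fun h1 => hm ((QuotientGroup.eq_one_iff g).1 h1)⟩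
  rw [← map_derivedSeries_eq (QuotientGroup.mk'_surjective (derivedSeries G m)),
    Subgroup.map_eq_bot_iff, QuotientGroup.ker_mk']

end Pool.Agent.Lib.MP_3f0e2e_al
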