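import Pool.Agent.Lib.MP_3f0e2e_al.Defs

/-! The integral derived series of a group. -/

set_option autoImplicit false

namespace Pool.Agent.Lib.MP_3f0e2e_al

/-- The series `D 0 = G`, `D (k + 1)` = the intersection of the kernels of all homomorphisms from
`D k` to the infinite cyclic group. -/
def zSeries (G : Type) [Group G] : ℕ → Subgroup G
  | 0 => ⊤
  | k + 1 => (⨅ f : zSeries G k →* Multiplicative ℤ, f.ker).map (zSeries G k).subtype

end Pool.Agent.Lib.MP_3f0e2e_al
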