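import Pool.Agent.Lib.MP_3f0e2e_al.Main
import Pool.Agent.Lib.MP_3f0e2e_al.ZDefs

/-! The integral derived series: amalgams along retracts. -/

set_option autoImplicit false

namespace Pool.Agent.Lib.MP_3f0e2e_al.Zs

open Subgroup Filter
open scoped Pointwise

variable {H : Type} [Group H]

theorem mem_succ {k : ℕ} {g : H} : g ∈ zSeries H (k + 1) ↔
    ∃ h : g ∈ zSeries H k, ∀ f : zSeries H k →* Multiplicative ℤ, f ⟨g, h⟩ = 1 := by
  rw [zSeries, Subgroup.mem_map]
  constructor
  · rintro ⟨x, hx, rfl⟩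
    exact ⟨x.2, fun f => mem_iInf.1 hx f⟩
  · rintro ⟨h, hf⟩
    exact ⟨⟨g, h⟩, mem_iInf.2 hf, rfl⟩

theorem map_mem_derived {G : Type} [Group G] (f : H →* G) {m : ℕ} {g : H}
    (hg : g ∈ zSeries H m) : f g ∈ zSeries G m := by
  induction m generalizing g with
  | zero => exact mem_top _
  | succ m ih =>
    obtain ⟨h1, h2⟩ := mem_succ.1 hg
    exact mem_succ.2 ⟨ih h1, fun φ => h2 (φ.comp
      ((f.comp (zSeries H m).subtype).codRestrict _ fun x => ih x.2))⟩

theorem zSeries_normal (k : ℕ) : (zSeries H k).Normal :=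
  ⟨fun _ hn g => map_mem_derived (MulAut.conj g).toMonoidHom hn⟩

theorem zSeries_antitone : Antitone (zSeries H) :=
  antitone_nat_of_succ_le fun _ _ hg => (mem_succ.1 hg).1

/-- `g` lies in every term of the series. -/
def Deep (g : H) : Prop := ∀ m, g ∈ zSeries H m

/-- The series has trivial intersection. -/
def RS (H : Type) [Group H] : Prop := ∀ g : H, Deep g → g = 1

theorem Deep.map {G : Type} [Group G] (f : H →* G) {g : H} (hg : Deep g) : Deep (f g) :=
  fun m => map_mem_derived f (hg m)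

theorem RS.of_injective {G : Type} [Group G] (hG : RS G) (f : H →* G)
    (hf : Function.Injective f) : RS H :=
  fun g hg => hf (by rw [hG _ (hg.map f), map_one])

theorem not_deep_eventually {g : H} (hg : ¬ Deep g) :
    ∀ᶠ k in atTop, g ∉ zSeries H k := by
  obtain ⟨m, hm⟩ := not_forall.1 hg
  filter_upwards [eventually_ge_atTop m] with k hk h using hm (zSeries_antitone hk h)

theorem cocycle_zero {Ω : Type} [MulAction H Ω] {d : H → Ω → ℤ} (hd : Cocycle d) {k : ℕ}
    (hD : ∀ g ∈ zSeries H k, ∀ ω : Ω, g • ω = ω) {g : H} (hg : g ∈ zSeries H (k + 1)) (ω : Ω) :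
    d g ω = 0 := by
  obtain ⟨h1, h2⟩ := mem_succ.1 hg
  exact h2 (MonoidHom.mk' (fun x => Multiplicative.ofAdd (d x.1 ω)) fun a b => by
    rw [Subgroup.coe_mul, hd, hD _ (inv_mem a.2), ofAdd_add])

theorem deep_comm {g : Multiplicative ℤ} (hg : Deep g) : g = 1 :=
  (mem_succ.1 (hg 1)).2 (zSeries _ 0).subtype

theorem rs_of_ker {K G : Type} [Group K] [Group G] (hK : RS K) (ι : K →* G)
    (hι : Function.Injective ι) (χ : G →* Multiplicative ℤ) (h : χ.ker ≤ ι.range) : RS G := by
  have key : ∀ m, zSeries G (m + 1) ≤ (zSeries K m).map ι := by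
    intro m
    induction m with
    | zero =>
      intro g hg
      obtain ⟨n, rfl⟩ := h ((mem_succ.1 hg).2 (χ.comp (zSeries G 0).subtype))
      exact ⟨n, mem_top _, rfl⟩
    | succ m ih =>
      intro g hg
      obtain ⟨h1, h2⟩ := mem_succ.1 hg
      obtain ⟨n, hn, rfl⟩ := ih h1
      refine ⟨n, mem_succ.2 ⟨hn, fun f => ?_⟩, rfl⟩
      have := h2 (f.comp (((zSeries K m).equivMapOfInjective ι hι).symm.toMonoidHom.comp
        (inclusion ih)))
      rw [← this]
      exact congrArg f (((zSeries K m).equivMapOfInjective ι hι).eq_symm_apply.2 rfl)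
  intro g hg
  obtain ⟨n, -, rfl⟩ := key 0 (hg 1)
  rw [hK n fun m => ?_, map_one]
  obtain ⟨n', hn', h'⟩ := key m (hg (m + 1))
  exact hι h' ▸ hn'

theorem red_not_deep {N : Bool → Subgroup H} {C : Subgroup H} (ρ : H →* H)
    (hρC : ∀ c ∈ C, ρ c = c) (hρN : ∀ b, ∀ n ∈ N b, ρ n = 1)
    (hN : ∀ b, ∀ n ∈ N b, Deep n → n = 1)
    (hco : ∀ (b : Bool) (Ω : Type) [MulAction H Ω] (e : Ω → ℤ),
      (∀ c ∈ C, ∀ ω, e (c⁻¹ • ω) = e ω) → ∃ d : H → Ω → ℤ, Cocycle d ∧
        (∀ p ∈ N (!b), ∀ ω, d p ω = 0) ∧ ∀ q ∈ N b, ∀ ω, d q ω = e ω - e (q⁻¹ • ω))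
    (n : ℕ) : ∀ L : List (Bool × H), L.length ≤ n → Red N L → L ≠ [] →
      ¬ Deep (L.map Prod.snd).prod := by
  classical
  induction n with
  | zero => intro L hL _ hne; exact absurd (List.length_eq_zero_iff.1 (Nat.le_zero.1 hL)) hne
  | succ n ih =>
    intro L hlen hred hne hdeep
    obtain ⟨⟨b, x⟩, L, rfl⟩ := List.exists_cons_of_ne_nil hne
    have hx := hred.1 _ List.mem_cons_self
    have hlen' : L.length ≤ n := by simpa using hlen
    have hev : ∀ᶠ k in atTop, x ∉ zSeries H k ∧ ∀ j ∈ Finset.range (L.length + 1),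
        L.take j ≠ [] → ((L.take j).map Prod.snd).prod ∉ zSeries H k := by
      refine (not_deep_eventually fun h => hx.2 (hN _ _ hx.1 h)).and ?_
      rw [eventually_all_finset]
      intro j _
      by_cases hj : L.take j = []
      · exact Eventually.of_forall fun k h => absurd hj h
      · filter_upwards [not_deep_eventually (ih (L.take j)
          ((List.length_take_le' _ _).trans hlen') (hred.tail.take j) hj)] with k hk _ using hk
    obtain ⟨k, hk1, hk2⟩ := hev.exists
    have hk3 : ∀ j, L.take j ≠ [] → ((L.take j).map Prod.snd).prod ∉ zSeries H k := by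
      intro j hj
      by_cases hjl : j ≤ L.length
      · exact hk2 j (Finset.mem_range.2 (Nat.lt_succ_of_le hjl)) hj
      · rw [List.take_of_length_le (not_le.1 hjl).le] at hj ⊢
        have := hk2 L.length (Finset.mem_range.2 (Nat.lt_succ_self _))
        rw [List.take_length] at this
        exact this hj
    set D := zSeries H k with hD
    have hDn : D.Normal := zSeries_normal k
    let E : Subgroup H := D ⊔ C
    have hker : ∀ y, ρ y = 1 → y ∈ E → y ∈ D := fun y hy hyE => by
      have h1 : y ∈ (D : Set H) * (C : Set H) := by rw [← normal_mul]; exact hyE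
      obtain ⟨a, ha, c, hc, rfl⟩ := h1
      have h2 : ρ a * c = 1 := by rw [← hρC c hc, ← map_mul]; exact hy
      have h3 : c = (ρ a)⁻¹ := eq_inv_of_mul_eq_one_right h2
      exact mul_mem ha (h3 ▸ inv_mem (map_mem_derived ρ ha))
    let o : H ⧸ E := ((1 : H) : H ⧸ E)
    let e : H ⧸ E → ℤ := fun ω => if ω = o then 1 else 0
    have hsm : ∀ y : H, y • o = o ↔ y ∈ E := fun y => by
      change ((y * 1 : H) : H ⧸ E) = ((1 : H) : H ⧸ E) ↔ _
      rw [QuotientGroup.eq]
      simp
    have he0 : ∀ y : H, ρ y = 1 → y ∉ D → e (y • o) = 0 ∧ e (y⁻¹ • o) = 0 := fun y hy hyD =>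
      ⟨if_neg fun h => hyD (hker y hy ((hsm y).1 h)),
        if_neg fun h => hyD (hker y hy (inv_mem_iff.1 ((hsm _).1 h)))⟩
    obtain ⟨d, hd, hd0, hd1⟩ := hco b (H ⧸ E) e fun c hc ω => by
      have : c⁻¹ • ω = o ↔ ω = o := by
        rw [inv_smul_eq_iff, (hsm c).2 (mem_sup_right hc)]
      simp only [e, this]
    have hDtriv : ∀ g ∈ D, ∀ ω : H ⧸ E, g • ω = ω := fun g hg ω => by
      induction ω using QuotientGroup.induction_on with
      | H y =>
        change ((g * y : H) : H ⧸ E) = (y : H ⧸ E)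
        rw [QuotientGroup.eq]
        refine mem_sup_left ?_
        have := hDn.conj_mem _ (inv_mem hg) y⁻¹
        simpa [mul_assoc] using this
    have hz := cocycle_zero hd hDtriv (hdeep (k + 1)) (x • o)
    rw [List.map_cons, List.prod_cons, hd, inv_smul_smul, hd1 x hx.1, inv_smul_smul,
      (he0 x (hρN _ _ hx.1) hk1).1] at hz
    have heo : e o = 1 := if_pos rfl
    have hρprod : ∀ M : List (Bool × H), Red N M → ρ (M.map Prod.snd).prod = 1 := fun M hM => by
      rw [map_list_prod]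
      refine List.prod_eq_one fun y hy => ?_
      obtain ⟨z, hz, rfl⟩ := List.mem_map.1 hy
      obtain ⟨w, hw, rfl⟩ := List.mem_map.1 hz
      exact hρN _ _ (hM.1 w hw).1
    have hfin : d (L.map Prod.snd).prod o = 0 := by
      cases L with
      | nil => exact hd.one _
      | cons y L =>
        have hb : y.1 = !b := by
          have : b ≠ y.1 := (List.isChain_cons_cons.1 hred.2).1
          exact Bool.eq_not_of_ne this.symm
        have hy := hred.tail.1 y List.mem_cons_self
        rw [List.map_cons, List.prod_cons, hd, hd0 _ (hb ▸ hy.1), zero_add]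
        refine hd.prod_eq_zero e o _ (fun m hm => ?_) y.2 fun j => ?_
        · obtain ⟨w, hw, rfl⟩ := List.mem_map.1 hm
          have hw' := (hred.tail.tail.1 w hw).1
          by_cases hwb : w.1 = b
          · exact Or.inr (hd1 _ (hwb ▸ hw'))
          · have : w.1 = !b := Bool.eq_not_of_ne hwb
            exact Or.inl (hd0 _ (this ▸ hw'))
        · have h1 := hk3 (j + 1) (by simp)
          have h2 := hρprod _ (hred.tail.take (j + 1))
          rw [List.take_succ_cons, List.map_cons, List.prod_cons, List.map_take] at h1 h2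
          exact (he0 _ h2 h1).2
    rw [hfin, heo] at hz
    omega

/-- Amalgams along retracts: deep elements of `P ⊔ Q` are trivial. -/
theorem amalg {P Q P' Q' C : Subgroup H} (hPP : P ≤ P') (hQQ : Q ≤ Q') (htop : P' ⊔ Q' = ⊤)
    (htw : Twist P' Q' C) (hCP : C ≤ P) (hCQ : C ≤ Q) (ρ : H →* H) (hρC : ∀ c ∈ C, ρ c = c)
    (hρP : ∀ p ∈ P, ρ p ∈ C) (hρQ : ∀ q ∈ Q, ρ q ∈ C)
    (hP : ∀ p ∈ P, Deep p → p = 1) (hQ : ∀ q ∈ Q, Deep q → q = 1)
    {g : H} (hg : g ∈ P ⊔ Q) (hdeep : Deep g) : g = 1 := by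
  let N : Bool → Subgroup H := fun b => (bif b then Q else P) ⊓ ρ.ker
  have hconj : ∀ c ∈ C, ∀ n ∈ N true ⊔ N false, c * n * c⁻¹ ∈ N true ⊔ N false := by
    intro c hc n hn
    have : N true ⊔ N false ≤ (N true ⊔ N false).comap (MulAut.conj c).toMonoidHom := by
      refine sup_le (fun m hm => mem_sup_left ⟨?_, ?_⟩) (fun m hm => mem_sup_right ⟨?_, ?_⟩)
      · exact Q.mul_mem (Q.mul_mem (hCQ hc) hm.1) (Q.inv_mem (hCQ hc))
      · exact ρ.normal_ker.conj_mem m hm.2 c
      · exact P.mul_mem (P.mul_mem (hCP hc) hm.1) (P.inv_mem (hCP hc))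
      · exact ρ.normal_ker.conj_mem m hm.2 c
    exact this hn
  have hmain : ρ g ∈ C ∧ g * (ρ g)⁻¹ ∈ N true ⊔ N false := by
    clear hdeep
    rw [sup_eq_closure] at hg
    induction hg using closure_induction with
    | mem x hx =>
      rcases hx with hx | hx
      · refine ⟨hρP x hx, mem_sup_right ⟨P.mul_mem hx (P.inv_mem (hCP (hρP x hx))), ?_⟩⟩
        change ρ _ = 1
        rw [map_mul, map_inv, hρC _ (hρP x hx), mul_inv_cancel]
      · refine ⟨hρQ x hx, mem_sup_left ⟨Q.mul_mem hx (Q.inv_mem (hCQ (hρQ x hx))), ?_⟩⟩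
        change ρ _ = 1
        rw [map_mul, map_inv, hρC _ (hρQ x hx), mul_inv_cancel]
    | one => simp
    | mul x y _ _ hx hy =>
      refine ⟨by rw [map_mul]; exact mul_mem hx.1 hy.1, ?_⟩
      have := mul_mem hx.2 (hconj _ hx.1 _ hy.2)
      simpa [mul_assoc] using this
    | inv x _ hx =>
      refine ⟨by rw [map_inv]; exact inv_mem hx.1, ?_⟩
      have := hconj _ (inv_mem hx.1) _ (inv_mem hx.2)
      simpa [mul_assoc] using this
  have h1 : ρ g = 1 := hP _ (hCP hmain.1) (hdeep.map ρ)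
  have h2 := hmain.2
  rw [h1, inv_one, mul_one] at h2
  obtain ⟨L, hL, rfl⟩ := exists_red h2
  by_contra hne
  refine red_not_deep (N := N) ρ hρC (fun b n hn => hn.2) (fun b n hn => ?_)
    (fun b Ω _ e he => ?_) L.length L le_rfl hL (fun h => hne (by rw [h]; rfl)) hdeep
  · cases b
    · exact hP n hn.1
    · exact hQ n hn.1
  · obtain ⟨d, hd, hd0, hd1⟩ := htw.exists_cocycle htop e he
    cases b
    · refine ⟨fun g ω => e ω - e (g⁻¹ • ω) - d g ω, fun g h ω => ?_, fun q hq ω => ?_,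
        fun p hp ω => ?_⟩
      · simp only [hd g h ω, mul_inv_rev, mul_smul]
        ring
      · simp only [hd1 q (hQQ hq.1), sub_self]
      · simp only [hd0 p (hPP hp.1), sub_zero]
    · exact ⟨d, hd, fun p hp => hd0 p (hPP hp.1), fun q hq => hd1 q (hQQ hq.1)⟩

end Pool.Agent.Lib.MP_3f0e2e_al.Zs
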