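import Pool.Agent.Lib.MP_3f0e2e_al.ZAmalg

/-! The integral derived series of a one-relator group whose relator is a basic commutator. -/

set_option autoImplicit false

namespace Pool.Agent.Lib.MP_3f0e2e_al.Zs

open Subgroup

variable {Z : Type}

theorem rs_free (Z : Type) : RS (FreeGroup Z) := by
  classical
  intro g
  obtain ⟨S, hS⟩ := exists_finset_mem_FA g
  induction S using Finset.induction_on generalizing g with
  | empty =>
    intro _
    simpa [FA] using hS
  | insert z S hz ih =>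
    refine amalg (P := FA {z}) (Q := FA (S : Set Z)) (P' := FA {z}) (Q' := FA {z}ᶜ) (C := ⊥)
      le_rfl (FA_mono ?_) (FA_sup_eq_top fun y => em _) ?_ bot_le bot_le 1 (by simp) (by simp)
      (by simp) ?_ ih ?_
    · intro y hy h
      exact hz (h ▸ hy)
    · intro T _ ι τ _
      refine ⟨FreeGroup.lift fun y => if y = z then ι (FreeGroup.of y)
        else τ * ι (FreeGroup.of y) * τ⁻¹, fun p hp => eq_of_FA _ ι ?_ hp, fun q hq =>
        eq_of_FA _ ((MulAut.conj τ).toMonoidHom.comp ι) ?_ hq⟩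
      · rintro y rfl
        simp
      · intro y hy
        have : y ≠ z := hy
        simp [this]
    · intro p hp hd
      rw [FA, Set.image_singleton, mem_closure_singleton] at hp
      obtain ⟨k, rfl⟩ := hp
      have h1 := deep_comm (hd.map
        (FreeGroup.lift fun _ : Z => Multiplicative.ofAdd (1 : ℤ)))
      have h2 : k = 0 := by simpa [← ofAdd_zsmul] using h1
      rw [h2, zpow_zero]
    · rw [Finset.coe_insert, Set.insert_eq, FA, Set.image_union, Subgroup.closure_union] at hS
      exact hS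

/-- Transfer of triviality of deep elements along an endomorphism of the free group. -/
theorem mk_eq_one_of_fix {R R' : Set (FreeGroup Z)} (hR : R' ⊆ R) (h : RS (PresentedGroup R'))
    (α : FreeGroup Z →* FreeGroup Z) (hα : ∀ r ∈ R, α r = 1 ∨ α r ∈ R') {g : FreeGroup Z}
    (hg : α g = g) (hd : Deep (PresentedGroup.mk R g)) : PresentedGroup.mk R g = 1 := by
  have h1 := h _ (hd.map (desc ((PresentedGroup.mk R').comp α) fun r hr => by
    rcases hα r hr with h | h
    · simp [h]
    · exact PresentedGroup.one_of_mem h))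
  rw [desc_mk, MonoidHom.comp_apply, hg, PresentedGroup.mk_eq_one_iff] at h1
  exact PresentedGroup.mk_eq_one_iff.2 (normalClosure_mono hR h1)

theorem rs_two {R₁ R₂ : Set (FreeGroup Z)} {A B : Set Z} (hAB : ∀ z, z ∈ A ∨ z ∈ B)
    (h₁ : ∀ r ∈ R₁, r ∈ FA A) (h₂ : ∀ r ∈ R₂, r ∈ FA B) (α β : FreeGroup Z →* FreeGroup Z)
    (hαA : ∀ z ∈ A, α (FreeGroup.of z) = FreeGroup.of z)
    (hαB : ∀ z ∈ B, α (FreeGroup.of z) ∈ FA (A ∩ B)) (hα : ∀ r ∈ R₂, α r = 1)
    (hβB : ∀ z ∈ B, β (FreeGroup.of z) = FreeGroup.of z)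
    (hβA : ∀ z ∈ A, β (FreeGroup.of z) ∈ FA (A ∩ B)) (hβ : ∀ r ∈ R₁, β r = 1)
    (rs₁ : RS (PresentedGroup R₁)) (rs₂ : RS (PresentedGroup R₂)) :
    RS (PresentedGroup (R₁ ∪ R₂)) := by
  classical
  intro g hg
  set π := PresentedGroup.mk (R₁ ∪ R₂) with hπ
  have htop : (FA A).map π ⊔ (FA B).map π = ⊤ := by
    rw [← Subgroup.map_sup, FA_sup_eq_top hAB, ← MonoidHom.range_eq_map,
      MonoidHom.range_eq_top]
    exact PresentedGroup.mk_surjective _
  have hfixα : ∀ c ∈ FA (A ∩ B), α c = c := fun c hc =>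
    fix_of_FA α (fun z hz => hαA z hz.1) hc
  refine amalg (C := (FA (A ∩ B)).map π) le_rfl le_rfl htop ?_
    (map_mono (FA_mono Set.inter_subset_left)) (map_mono (FA_mono Set.inter_subset_right))
    (desc (π.comp (α.comp β)) fun r hr => ?_) ?_ ?_ ?_ ?_ ?_ (htop ▸ mem_top g) hg
  · intro T _ ι τ hτ
    let f : FreeGroup Z →* T := FreeGroup.lift fun y => if y ∈ A then ι (π (FreeGroup.of y))
      else τ * ι (π (FreeGroup.of y)) * τ⁻¹
    have hfA : ∀ p ∈ FA A, f p = ι (π p) := fun p hp =>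
      eq_of_FA f (ι.comp π) (fun z hz => by simp [f, hz]) hp
    have hfB : ∀ p ∈ FA B, f p = τ * ι (π p) * τ⁻¹ := fun p hp =>
      eq_of_FA f ((MulAut.conj τ).toMonoidHom.comp (ι.comp π)) (fun z hz => by
        by_cases hzA : z ∈ A
        · have := hτ _ ⟨_, of_mem_FA ⟨hzA, hz⟩, rfl⟩
          simp [f, hzA, this]
        · simp [f, hzA]) hp
    refine ⟨desc f fun r hr => ?_, ?_, ?_⟩
    · have h1 : π r = 1 := PresentedGroup.one_of_mem hr
      rcases hr with hr | hr
      · rw [hfA r (h₁ r hr), h1, map_one]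
      · rw [hfB r (h₂ r hr), h1, map_one, mul_one, mul_inv_cancel]
    · rintro _ ⟨p, hp, rfl⟩
      exact hfA p hp
    · rintro _ ⟨p, hp, rfl⟩
      exact hfB p hp
  · rcases hr with hr | hr
    · simp [hβ r hr]
    · simp [fix_of_FA β hβB (h₂ r hr), hα r hr]
  · rintro _ ⟨c, hc, rfl⟩
    change π (α (β c)) = π c
    rw [fix_of_FA β (fun z hz => hβB z hz.2) hc, hfixα c hc]
  · rintro _ ⟨p, hp, rfl⟩
    have := map_mem_of_FA β hβA hp
    exact ⟨β p, this, by change _ = π (α (β p)); rw [hfixα _ this]⟩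
  · rintro _ ⟨p, hp, rfl⟩
    exact ⟨α p, map_mem_of_FA α hαB hp, by
      change _ = π (α (β p)); rw [fix_of_FA β hβB hp]⟩
  · rintro _ ⟨p, hp, rfl⟩ hd
    refine mk_eq_one_of_fix Set.subset_union_left rs₁ α (fun r hr => ?_) (fix_of_FA α hαA hp) hd
    rcases hr with hr | hr
    · right; rwa [fix_of_FA α hαA (h₁ r hr)]
    · exact Or.inl (hα r hr)
  · rintro _ ⟨p, hp, rfl⟩ hd
    refine mk_eq_one_of_fix Set.subset_union_right rs₂ β (fun r hr => ?_) (fix_of_FA β hβB hp) hd
    rcases hr with hr | hr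
    · exact Or.inl (hβ r hr)
    · right; rwa [fix_of_FA β hβB (h₂ r hr)]

section Line

variable {l : Z → ℤ} {M : ℕ} {w : ℤ → FreeGroup Z}

theorem rs_line (hw : ∀ k, w k ∈ FA {z | k ≤ l z ∧ l z ≤ k + M}) (hb : KillBelow l M w)
    (ha : KillBelow (fun z => -l z) M fun k => w (-k - M))
    (hrs : ∀ k, RS (PresentedGroup {w k})) : RS (PresentedGroup (Set.range w)) := by
  have hbelow := hb.exists_all fun k => FA_mono (fun z hz => hz.1) (hw k)
  have habove : ∀ b : ℤ, ∃ α : FreeGroup Z →* FreeGroup Z,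
      (∀ z, l z < b + M → α (FreeGroup.of z) = FreeGroup.of z) ∧
      (∀ z, b + M ≤ l z → α (FreeGroup.of z) ∈ FA {z | b ≤ l z ∧ l z < b + M}) ∧
      ∀ k, b ≤ k → α (w k) = 1 := fun b => by
    obtain ⟨α, h1, h2, h3⟩ := ha.exists_all (fun k => FA_mono (fun z hz => by
      have := hz.2
      change k ≤ -l z
      omega) (hw _)) (1 - b - M)
    refine ⟨α, fun z hz => h1 z (by omega), fun z hz => FA_mono (fun y hy => ?_)
      (h2 z (by omega)), fun k hk => ?_⟩
    · have h4 : 1 - b - M ≤ -l y := hy.1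
      have h5 : -l y < 1 - b - M + M := hy.2
      exact ⟨by omega, by omega⟩
    · have := h3 (-k - M) (by omega)
      rwa [show -(-k - M) - M = k by ring] at this
  have hfin : ∀ (a : ℤ) (n : ℕ), RS (PresentedGroup (w '' Set.Icc a (a + n))) := by
    intro a n
    induction n with
    | zero =>
      have : w '' Set.Icc a (a + (0 : ℕ)) = {w a} := by simp
      rw [this]
      exact hrs a
    | succ n ih =>
      have hI : w '' Set.Icc a (a + (n + 1 : ℕ)) = w '' Set.Icc a (a + n) ∪ {w (a + n + 1)} := by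
        rw [← Set.image_singleton, ← Set.image_union]
        congr 1
        ext k
        simp only [Set.mem_Icc, Set.mem_union, Set.mem_singleton_iff]
        push_cast
        omega
      rw [hI]
      obtain ⟨α, a1, a2, a3⟩ := habove (a + n + 1)
      obtain ⟨β, b1, b2, b3⟩ := hbelow (a + n + 1)
      refine rs_two (A := {z | l z < a + n + 1 + M}) (B := {z | a + n + 1 ≤ l z})
        (fun z => by simp only [Set.mem_ofPred_eq]; omega) ?_ ?_ α β a1 (fun z hz => ?_) ?_ b1
        (fun z hz => ?_) ?_ ih (hrs _)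
      · rintro _ ⟨k, hk, rfl⟩
        exact FA_mono (fun z hz => by
          have h1 := hz.2
          have h2 := hk.2
          change l z < _
          omega) (hw k)
      · rintro _ rfl
        exact FA_mono (fun z hz => hz.1) (hw _)
      · by_cases h : l z < a + n + 1 + M
        · rw [a1 z h]; exact of_mem_FA (Set.mem_inter h hz)
        · exact FA_mono (fun y hy => Set.mem_inter hy.2 hy.1) (a2 z (not_lt.1 h))
      · rintro _ rfl
        exact a3 _ le_rfl
      · by_cases h : a + n + 1 ≤ l z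
        · rw [b1 z h]; exact of_mem_FA (Set.mem_inter hz h)
        · exact FA_mono (fun y hy => Set.mem_inter hy.2 hy.1) (b2 z (not_le.1 h))
      · rintro _ ⟨k, hk, rfl⟩
        exact b3 k (by have := hk.2; omega)
  intro g hg
  obtain ⟨g, rfl⟩ := PresentedGroup.mk_surjective _ g
  obtain ⟨S, hS⟩ := exists_finset_mem_FA g
  obtain ⟨L, hL⟩ : ∃ L : ℕ, ∀ z ∈ S, (l z).natAbs ≤ L :=
    ⟨S.sup fun z => (l z).natAbs, fun z hz => Finset.le_sup (f := fun z => (l z).natAbs) hz⟩
  obtain ⟨α, a1, -, a3⟩ := habove (-L + (2 * L : ℕ) + 1)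
  obtain ⟨β, b1, -, b3⟩ := hbelow (-L)
  refine mk_eq_one_of_fix (Set.image_subset_range _ _) (hfin (-L) (2 * L)) (α.comp β) ?_
    (fix_of_FA _ (fun z hz => ?_) hS) hg
  · rintro _ ⟨k, rfl⟩
    by_cases h1 : k < -L
    · left; simp [b3 k h1]
    · have h2 : β (w k) = w k := fix_of_FA β (fun z hz => b1 z (by have := hz.1; omega)) (hw k)
      by_cases h3 : -L + (2 * L : ℕ) + 1 ≤ k
      · left; rw [MonoidHom.comp_apply, h2, a3 k h3]
      · right
        rw [MonoidHom.comp_apply, h2,
          fix_of_FA α (fun z hz => a1 z (by have := hz.2; omega)) (hw k)]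
        exact ⟨k, ⟨by omega, by omega⟩, rfl⟩
  · have := hL z hz
    rw [MonoidHom.comp_apply, b1 z (by omega), a1 z (by omega)]

end Line

theorem rs_aut {w : FreeGroup Z} (h : RS (PresentedGroup {w})) (θ θ' : FreeGroup Z →* FreeGroup Z)
    (h1 : ∀ z, θ (θ' (FreeGroup.of z)) = FreeGroup.of z) (h2 : θ' (θ w) = w) :
    RS (PresentedGroup {θ w}) := by
  let φ : PresentedGroup {θ w} →* PresentedGroup {w} :=
    PresentedGroup.map θ' (by rintro _ rfl; exact h2)
  let ψ : PresentedGroup {w} →* PresentedGroup {θ w} :=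
    PresentedGroup.map θ (by rintro _ rfl; rfl)
  have : ψ.comp φ = MonoidHom.id _ := PresentedGroup.ext fun z =>
    congrArg (PresentedGroup.mk {θ w}) (h1 z)
  exact h.of_injective φ (Function.LeftInverse.injective (g := ψ) fun g => DFunLike.congr_fun this g)

theorem rs_letter (z₀ : Z) : RS (PresentedGroup {FreeGroup.of z₀}) := by
  classical
  let κ : FreeGroup Z →* FreeGroup Z :=
    FreeGroup.lift fun z => if z = z₀ then 1 else FreeGroup.of z
  let φ : PresentedGroup {FreeGroup.of z₀} →* FreeGroup Z :=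
    desc κ (by rintro _ rfl; simp [κ])
  have : (PresentedGroup.mk {FreeGroup.of z₀}).comp φ = MonoidHom.id _ :=
    PresentedGroup.ext fun z => by
      change PresentedGroup.mk _ (κ (FreeGroup.of z)) = PresentedGroup.mk _ (FreeGroup.of z)
      by_cases h : z = z₀
      · rw [h, PresentedGroup.one_of_mem (Set.mem_singleton (FreeGroup.of z₀))]
        simp [κ]
      · simp [κ, h]
  exact (rs_free Z).of_injective φ (Function.LeftInverse.injective
    (g := PresentedGroup.mk {FreeGroup.of z₀}) fun g => DFunLike.congr_fun this g)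

theorem rs_kernel {Y : Type} (f : Y → Z) (c : FreeMagma (Y × ℕ))
    (h : RS (PresentedGroup {ev (fun p : Y × ℕ => FreeGroup.of (f p.1, (p.2 : ℤ))) c})) :
    RS (PresentedGroup (Set.range fun k : ℤ => ev (fun p : Y × ℕ => yw (f p.1) p.2 k) c)) := by
  obtain ⟨⟨y, M⟩, hy, hM⟩ := exists_max_leaf c
  refine rs_line (l := Prod.snd) (M := M) (fun k => ev_mem fun p hp => FA_mono
    (fun x hx => And.intro hx.1 ?_) (yw_mem _ _ k)) (fun k => ?_) (fun k => ?_) fun k => ?_
  · have h1 := hx.2
    have h2 : p.2 ≤ M := hM p hp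
    omega
  · obtain ⟨p, hp, q, hq, ε, hε, h1⟩ := yw_bot (f y) M k
    obtain ⟨β, b1, b2, b3⟩ := exists_kill (T := {x : Z × ℤ | x.2 ≤ k}) (z₀ := (f y, k))
      (fun x hx hx' => absurd hx.1 (not_lt.2 hx')) (le_refl k) hp hq hε
    refine ⟨β, fun z hz => b1 z (not_le.2 hz), b2, ?_⟩
    rw [map_ev]
    exact ev_eq_one hy (by rw [h1]; exact b3)
  · obtain ⟨p, hp, q, hq, h1⟩ := yw_top (f y) M (-k - M)
    obtain ⟨β, b1, b2, b3⟩ := exists_kill (T := {x : Z × ℤ | -x.2 ≤ k})
      (z₀ := (f y, -k - M + M)) (fun x hx hx' => by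
        have h2 := hx.2
        have h3 : -x.2 ≤ k := hx'
        omega) (by change -(-k - M + M) ≤ k; omega) hp hq (Or.inl rfl)
    refine ⟨β, fun z hz => b1 z (not_le.2 hz), fun z hz => FA_mono (fun x hx => ?_) (b2 z hz), ?_⟩
    · have h2 := hx.1
      have h3 := hx.2
      exact ⟨by change k < -x.2; omega, by change -x.2 ≤ k + M; omega⟩
    · rw [map_ev]
      exact ev_eq_one hy (by rw [h1]; exact b3)
  · obtain ⟨θ, θ', h1, h2, h3⟩ := exists_theta (Z := Z)
    have h4 := rs_aut h θ θ' h2 (by simp only [map_ev, h1, h3])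
    have h5 := rs_aut h4 (shift k) (shift (-k)) (fun z => by simp [shift_of])
      (by simp only [map_ev, h1, shift_yw]; simp)
    have h6 : shift k (θ (ev (fun p : Y × ℕ => FreeGroup.of (f p.1, (p.2 : ℤ))) c)) =
        ev (fun p : Y × ℕ => yw (f p.1) p.2 k) c := by
      simp only [map_ev, h1, shift_yw, zero_add]
    rw [h6] at h5
    exact h5

theorem rs_step {Y : Type} (f : Y → Z) (hf : Function.Injective f) (t : Y)
    (c : FreeMagma (Y × ℕ)) (hc : NoT t c)
    (h : RS (PresentedGroup (Set.range fun k : ℤ => ev (fun p : Y × ℕ => yw (f p.1) p.2 k) c))) :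
    RS (PresentedGroup {ev (fun y => FreeGroup.of (f y)) (subst t c)}) := by
  classical
  set R := Set.range fun k : ℤ => ev (fun p : Y × ℕ => yw (f p.1) p.2 k) c with hR
  set R₀ : Set (FreeGroup Z) := {ev (fun y => FreeGroup.of (f y)) (subst t c)} with hR₀
  let sh : ℤ → PresentedGroup R →* PresentedGroup R := fun j =>
    PresentedGroup.map (shift j) (by
      rintro _ ⟨k, rfl⟩
      exact ⟨k + j, by simp only [map_ev, shift_yw]⟩)
  have hsh : ∀ j g, sh j (PresentedGroup.mk R g) = PresentedGroup.mk R (shift j g) :=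
    fun _ _ => rfl
  have hsh' : ∀ j p, sh j (PresentedGroup.of p) = PresentedGroup.of (p.1, p.2 + j) :=
    fun j p => by rw [PresentedGroup.of, hsh, shift_of]; rfl
  let a : Multiplicative ℤ →* MulAut (PresentedGroup R) :=
    { toFun := fun j => MonoidHom.toMulEquiv (sh j.toAdd) (sh (-j.toAdd))
        (PresentedGroup.ext fun p => by simp [hsh']) (PresentedGroup.ext fun p => by simp [hsh'])
      map_one' := MulEquiv.toMonoidHom_injective (PresentedGroup.ext fun p => by simp [hsh'])
      map_mul' := fun i j => MulEquiv.toMonoidHom_injective (PresentedGroup.ext fun p => by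
        simp [hsh', add_comm, add_left_comm]) }
  have ha : ∀ j g, a j g = sh j.toAdd g := fun _ _ => rfl
  have hrs : RS (PresentedGroup R ⋊[a] Multiplicative ℤ) :=
    rs_of_ker h SemidirectProduct.inl SemidirectProduct.inl_injective SemidirectProduct.rightHom
      SemidirectProduct.range_inl_eq_ker_rightHom.ge
  let φ₀ : FreeGroup Z →* PresentedGroup R ⋊[a] Multiplicative ℤ := FreeGroup.lift fun z =>
    if z = f t then SemidirectProduct.inr (Multiplicative.ofAdd 1)⁻¹
    else SemidirectProduct.inl (PresentedGroup.of (z, 0))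
  have hφt : φ₀ (FreeGroup.of (f t)) = SemidirectProduct.inr (Multiplicative.ofAdd 1)⁻¹ := by
    simp only [φ₀, FreeGroup.lift_apply_of, if_true]
  have hφz : ∀ z, z ≠ f t → φ₀ (FreeGroup.of z) =
      SemidirectProduct.inl (PresentedGroup.of (z, 0)) := fun z hz => by
    simp only [φ₀, FreeGroup.lift_apply_of, if_neg hz]
  have hφeta : ∀ y, y ≠ t → ∀ i, ev (fun y => φ₀ (FreeGroup.of (f y))) (eta t y i) =
      SemidirectProduct.inl (PresentedGroup.mk R (yw (f y) i 0)) := by
    intro y hy i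
    induction i with
    | zero => exact hφz _ fun h => hy (hf h)
    | succ i ih =>
      rw [eta, ev, ih, ev, hφt, yw, map_mul, map_mul, map_inv, map_inv, ← shift_yw, ← hsh,
        show sh 1 = fun g => a (Multiplicative.ofAdd 1) g from rfl]
      simp only [SemidirectProduct.inl_aut, map_inv, inv_inv, mul_assoc]
  let φ : PresentedGroup R₀ →* PresentedGroup R ⋊[a] Multiplicative ℤ := desc φ₀ (by
    rintro _ rfl
    rw [map_ev, ev_subst, ev_congr fun p hp => hφeta p.1 (hc p hp) p.2,
      ← map_ev SemidirectProduct.inl fun p : Y × ℕ => PresentedGroup.mk R (yw (f p.1) p.2 0),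
      ← map_ev (PresentedGroup.mk R), PresentedGroup.one_of_mem (rels := R) ⟨0, rfl⟩, map_one])
  let T : PresentedGroup R₀ := PresentedGroup.of (f t)
  let ψ₀ : FreeGroup (Z × ℤ) →* PresentedGroup R₀ := FreeGroup.lift fun p =>
    T ^ (-p.2) * PresentedGroup.of p.1 * T ^ p.2
  have hψeta : ∀ y i k, ψ₀ (yw (f y) i k) = MulAut.conj (T ^ (-k))
      (ev (fun y => PresentedGroup.mk R₀ (FreeGroup.of (f y))) (eta t y i)) := by
    intro y i
    induction i with
    | zero =>
      intro k
      rw [MulAut.conj_apply, ← zpow_neg, neg_neg]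
      exact FreeGroup.lift_apply_of
    | succ i ih =>
      intro k
      rw [yw, map_mul, map_inv, ih, ih, eta, ev, ev]
      simp only [MulAut.conj_apply]
      change _ = T ^ (-k) * (_ * T⁻¹ * _ * T) * _
      group
  let ψ₁ : PresentedGroup R →* PresentedGroup R₀ := desc ψ₀ (by
    rintro _ ⟨k, rfl⟩
    simp only [map_ev, hψeta]
    have := map_ev (MulAut.conj (T ^ (-k))).toMonoidHom
      (fun p : Y × ℕ => ev (fun y => PresentedGroup.mk R₀ (FreeGroup.of (f y))) (eta t p.1 p.2)) c
    rw [← ev_subst, ← map_ev, PresentedGroup.one_of_mem (rels := R₀) rfl, map_one] at this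
    exact this.symm)
  have hψ₁ : ∀ p : Z × ℤ, ψ₁ (PresentedGroup.of p) =
      T ^ (-p.2) * PresentedGroup.of p.1 * T ^ p.2 := fun p => FreeGroup.lift_apply_of
  let ψ : PresentedGroup R ⋊[a] Multiplicative ℤ →* PresentedGroup R₀ :=
    SemidirectProduct.lift ψ₁ (zpowersHom _ T⁻¹) fun j => PresentedGroup.ext fun p => by
      change ψ₁ (sh j.toAdd (PresentedGroup.of p)) =
        T⁻¹ ^ j.toAdd * ψ₁ (PresentedGroup.of p) * (T⁻¹ ^ j.toAdd)⁻¹
      rw [hsh', hψ₁, hψ₁]
      group
  have hid : ψ.comp φ = MonoidHom.id _ := PresentedGroup.ext fun z => by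
    change ψ (φ₀ (FreeGroup.of z)) = PresentedGroup.of z
    by_cases hz : z = f t
    · rw [hz, hφt]
      simp [ψ, T]
    · rw [hφz z hz]
      simp [ψ, hψ₁]
  exact hrs.of_injective φ (Function.LeftInverse.injective (g := ψ) fun g =>
    DFunLike.congr_fun hid g)

theorem rs_hall (n : ℕ) : ∀ (Y Z : Type) (f : Y → Z), Function.Injective f →
    ∀ (r : FreeMagma Y → FreeMagma Y → Prop) (c : FreeMagma Y), c.length ≤ n → Hall r c →
      RS (PresentedGroup {ev (fun y => FreeGroup.of (f y)) c}) := by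
  induction n with
  | zero => intro Y Z f _ r c hc _; exact absurd (FreeMagma.length_pos c) (by omega)
  | succ n ih =>
    intro Y Z f hf r c hc h
    obtain ⟨t, ht, hmin⟩ := h.exists_min
    by_cases hct : c = .of t
    · rw [hct]
      exact rs_letter (f t)
    · obtain ⟨c', h1, rfl, -⟩ := h.exists_subst ht hmin c (.refl c) hct
      refine rs_step f hf t c' h1 (rs_kernel f c' ?_)
      refine ih (Y × ℕ) (Z × ℤ) (fun p => (f p.1, (p.2 : ℤ))) (fun p q hpq => ?_) _ c' ?_
        (h.of_subst h1)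
      · rw [Prod.mk.injEq] at hpq
        exact Prod.ext (hf hpq.1) (by exact_mod_cast hpq.2)
      · have := length_lt_subst h1 ht
        omega

end Pool.Agent.Lib.MP_3f0e2e_al.Zs
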